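import Pool.Agent.CSE.Plots

/-!
# CSE/Exist: the Cappell-Shaneson construction exists for every framing

`exists_csData`: for an invertible integral matrix and a framing (with the condition which makes the tube
embedded) there is a Hausdorff smooth 4-manifold with the data.
-/

open scoped Manifold ContDiff Topology
open Set Filter

namespace Pool.Agent.CSE

open Pool.Agent.CSG

variable {u : M3ˣ} {P : ℝ → E3 ≃L[ℝ] E3}

theorem exists_lin : Nonempty (E4 ≃L[ℝ] E3 × ℝ) := by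
  have hdim : Module.finrank ℝ E4 = Module.finrank ℝ (E3 × ℝ) := by
    rw [Module.finrank_prod, Module.finrank_self, finrank_euclideanSpace_fin,
      finrank_euclideanSpace_fin]
  exact FiniteDimensional.nonempty_continuousLinearEquiv_of_finrank_eq hdim

theorem lin_ld (L : E4 ≃L[ℝ] E3 × ℝ) (z : E4) : LDH L z :=
  ld_of_perm (f := L.toEquiv) L.contDiff L.symm.contDiff z

/-- a parametrization of `S^2 x C` at a given point -/
theorem exists_LDJ (y : S2) (v : ℂ) : ∃ (g : E4 → S2 × ℂ) (z : E4), LDJ g z ∧ g z = (y, v) := by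
  obtain ⟨L⟩ := exists_lin
  have h1 := TS.OfCoreM_m1_ld y (s := 1 / 2) (t := 0) (by norm_num)
  have hT : IsLocalDiffeomorphAt ((𝓡 2).prod 𝓘(ℝ, ℂ)) ((𝓡 2).prod 𝓘(ℝ, ℂ)) ∞
      (fun a : S2 × ℂ => (a.1, a.2 + (1 / 2 - v))) (y, v) := by
    let D : Diffeomorph ((𝓡 2).prod 𝓘(ℝ, ℂ)) ((𝓡 2).prod 𝓘(ℝ, ℂ)) (S2 × ℂ) (S2 × ℂ) ∞ :=
      { toFun := fun a => (a.1, a.2 + (1 / 2 - v))
        invFun := fun a => (a.1, a.2 - (1 / 2 - v))
        left_inv := fun a => by simp
        right_inv := fun a => by simp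
        contMDiff_toFun := contMDiff_fst.prodMk (contMDiff_snd.add contMDiff_const)
        contMDiff_invFun := contMDiff_fst.prodMk (contMDiff_snd.sub contMDiff_const) }
    exact D.isLocalDiffeomorph _
  have e0 : ((y, v + (1 / 2 - v)) : S2 × ℂ) = (y, ((1 / 2 : ℝ) : ℂ) * TS.ex 0) := by
    have : TS.ex 0 = 1 := by simpa using TS.ex_int 0
    rw [this]
    simp
  rw [← e0] at h1
  have h2 := IsLocalDiffeomorphAt.comp (hf := hT) (hg := h1) ..
  set Φ := (fun a : S2 × ℂ => (‖a.2‖ • (a.1 : E3), TS.OfCoreM_larg 0 a.2)) ∘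
    (fun a : S2 × ℂ => (a.1, a.2 + (1 / 2 - v))) with hΦ
  have h3 := h2.localInverse_isLocalDiffeomorphAt
  have h4 : h2.localInverse (Φ (y, v)) = (y, v) :=
    h2.localInverse_left_inv h2.localInverse_mem_target
  have h5 : LDJ (h2.localInverse ∘ L) (L.symm (Φ (y, v))) := by
    refine IsLocalDiffeomorphAt.comp (hf := lin_ld L _) (hg := ?_) ..
    rw [L.apply_symm_apply]
    exact h3
  refine ⟨_, _, h5, ?_⟩
  rw [Function.comp_apply, L.apply_symm_apply, h4]

theorem Hx_ld (hP : IsFr u P) {x : E3} (t : ℝ) (hx : ¬ IsLat x) :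
    letI := (isPlots hP).top; letI := (isPlots hP).chs
    IsLocalDiffeomorphAt 𝓘(ℝ, E3 × ℝ) (𝓡 4) ∞ (Hx u) (x, t) := by
  let _ := (isPlots hP).top; let _ := (isPlots hP).chs
  obtain ⟨L⟩ := exists_lin
  have h1 : Plt u P (Hx u ∘ L) (L.symm (x, t)) := by
    refine Or.inl ⟨L, lin_ld L _, ?_, Filter.EventuallyEq.rfl⟩
    rw [L.apply_symm_apply]
    exact hx
  have h2 := (isPlots hP).plot_ld h1
  have h3 := ld_of_comp_left h2 (lin_ld L _)
  rwa [L.apply_symm_apply] at h3

theorem jx_ld (hP : IsFr u P) (y : S2) {v : ℂ} (hv : ‖v‖ < 1) :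
    letI := (isPlots hP).top; letI := (isPlots hP).chs
    IsLocalDiffeomorphAt ((𝓡 2).prod 𝓘(ℝ, ℂ)) (𝓡 4) ∞ (jx u P) (y, v) := by
  let _ := (isPlots hP).top; let _ := (isPlots hP).chs
  obtain ⟨g, z, hg, hz⟩ := exists_LDJ y v
  have h1 : Plt u P (jx u P ∘ g) z := by
    refine Or.inr ⟨g, hg, ?_, Filter.EventuallyEq.rfl⟩
    rw [hz]
    exact hv
  have h2 := (isPlots hP).plot_ld h1
  have h3 := ld_of_comp_left h2 hg
  rwa [hz] at h3

theorem ex_eq (t : ℝ) : Complex.exp (2 * Real.pi * t * Complex.I) = TS.ex t := by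
  unfold TS.ex
  congr 1
  push_cast
  ring

/-- the data -/
noncomputable def data (hP : IsFr u P) :
    @CSData (u : M3) (CX u) (isPlots hP).top (isPlots hP).chs :=
  letI := (isPlots hP).top; letI := (isPlots hP).chs
  { H := Hx u
    j := jx u P
    P := P
    P_smooth := hP.smooth
    P_mon := hP.mon
    P_avoid := fun t z hz h => hP.avoid t z hz (h.trans (by norm_num))
    H_loc := fun x t hx => Hx_ld hP t hx
    H_per := fun x t m hx => Hx_per t m hx
    H_mon := fun x t hx => Hx_mon t hx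
    H_inj := fun x y s t hx hy hs hs' ht ht' h => Hx_inj hx hy hs hs' ht ht' h
    j_loc := fun y v hv => jx_ld hP y hv
    j_inj := fun y y' v v' hv hv' h => by
      have h1 := jx_inj hP (a := (y, v)) (b := (y', v')) hv hv' h
      exact ⟨congrArg Prod.fst h1, congrArg Prod.snd h1⟩
    glue := fun t r y h0 h1 => by
      rw [ex_eq]
      exact jx_glue hP t r y h0 h1
    disj := fun y x t hx h => by
      rw [jx_zero] at h
      exact Hx_ne_inr (p := (x, t)) hx y h.symm
    cover := fun p => by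
      rcases cover (P := P) p with h | ⟨⟨x, t⟩, hx, h⟩
      · exact Or.inl h
      · exact Or.inr ⟨x, t, hx, h⟩ }

theorem isManifold (hP : IsFr u P) : letI := (isPlots hP).top; letI := (isPlots hP).chs
    IsManifold (𝓡 4) ∞ (CX u) := (isPlots hP).isManifold

theorem t2 (hP : IsFr u P) : letI := (isPlots hP).top
    T2Space (CX u) := (isPlots hP).t2 fun hf hf' e => sep hP hf hf' e

/-- **Existence.** -/
theorem exists_csData {A : M3} (hA : IsUnit A) {P : ℝ → E3 ≃L[ℝ] E3}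
    (h1 : ContDiff ℝ ∞ fun q : ℝ × E3 => P q.1 q.2)
    (h2 : ∀ t z, act A (P (t + 1) z) = P t z)
    (h3 : ∀ t z, z ≠ 0 → ‖z‖ < 2 → ¬ IsLat (P t z)) :
    ∃ (X : Type) (_ : TopologicalSpace X) (_ : ChartedSpace E4 X),
      T2Space X ∧ IsManifold (𝓡 4) ∞ X ∧ ∃ D : CSData A X, D.P = P := by
  obtain ⟨u, rfl⟩ := hA
  have hP : IsFr u P := ⟨h1, h2, h3⟩
  exact ⟨CX u, (isPlots hP).top, (isPlots hP).chs, t2 hP, isManifold hP, data hP, rfl⟩

/-- transport of the data along a diffeomorphism -/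
noncomputable def mapData {A : M3} {X : Type*} [TopologicalSpace X] [ChartedSpace E4 X]
    {Y : Type*} [TopologicalSpace Y] [ChartedSpace E4 Y] (D : CSData A X)
    (φ : X ≃ₘ^∞⟮𝓡 4, 𝓡 4⟯ Y) : CSData A Y where
  H := φ ∘ D.H
  j := φ ∘ D.j
  P := D.P
  P_smooth := D.P_smooth
  P_mon := D.P_mon
  P_avoid := D.P_avoid
  H_loc := fun x t hx =>
    IsLocalDiffeomorphAt.comp (hf := D.H_loc x t hx) (hg := φ.isLocalDiffeomorph _) ..
  H_per := fun x t m hx => congrArg φ (D.H_per x t m hx)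
  H_mon := fun x t hx => congrArg φ (D.H_mon x t hx)
  H_inj := fun x y s t hx hy hs hs' ht ht' h =>
    D.H_inj x y s t hx hy hs hs' ht ht' (φ.injective h)
  j_loc := fun y v hv =>
    IsLocalDiffeomorphAt.comp (hf := D.j_loc y v hv) (hg := φ.isLocalDiffeomorph _) ..
  j_inj := fun y y' v v' hv hv' h => D.j_inj y y' v v' hv hv' (φ.injective h)
  glue := fun t r y h0 h1 => congrArg φ (D.glue t r y h0 h1)
  disj := fun y x t hx h => D.disj y x t hx (φ.injective h)
  cover := fun p => by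
    rcases D.cover (φ.symm p) with ⟨y, h⟩ | ⟨x, t, hx, h⟩
    · exact Or.inl ⟨y, by rw [Function.comp_apply, ← h, φ.apply_symm_apply]⟩
    · exact Or.inr ⟨x, t, hx, by rw [Function.comp_apply, ← h, φ.apply_symm_apply]⟩

end Pool.Agent.CSE
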