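import Pool.Agent.CSE.Exist

/-!
# CSE/Frame: framings exist

`exists_framing`: every integral matrix of determinant `1` has a framing (with the condition which makes
the tube embedded).
-/

open scoped Manifold ContDiff Topology
open Set Filter

namespace Pool.Agent.CSE

open Pool.Agent.CSG

abbrev MR := Matrix (Fin 3) (Fin 3) ℝ

/-- a smooth path of invertible matrices from `1` to `M`, constant near the ends -/
def Conn (M : MR) : Prop :=
  ∃ γ : ℝ → MR, (∀ i j, ContDiff ℝ ∞ fun t => γ t i j) ∧ (∀ t, (γ t).det ≠ 0) ∧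
    (∀ t, t ≤ 1 / 3 → γ t = 1) ∧ ∀ t, 2 / 3 ≤ t → γ t = M

noncomputable def stp (t : ℝ) : ℝ := Real.smoothTransition (3 * t - 1)

theorem stp_smooth : ContDiff ℝ ∞ stp :=
  Real.smoothTransition.contDiff.comp ((contDiff_const.mul contDiff_id).sub contDiff_const)

theorem stp_zero {t : ℝ} (h : t ≤ 1 / 3) : stp t = 0 :=
  Real.smoothTransition.zero_of_nonpos (by linarith)

theorem stp_one {t : ℝ} (h : 2 / 3 ≤ t) : stp t = 1 :=
  Real.smoothTransition.one_of_one_le (by linarith)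

theorem Conn.mul {M N : MR} (hM : Conn M) (hN : Conn N) : Conn (M * N) := by
  obtain ⟨γ, h1, h2, h3, h4⟩ := hM
  obtain ⟨δ, k1, k2, k3, k4⟩ := hN
  refine ⟨fun t => γ t * δ t, fun i j => ?_, fun t => ?_, fun t ht => ?_, fun t ht => ?_⟩
  · simp only [Matrix.mul_apply]
    exact ContDiff.sum fun l _ => (h1 i l).mul (k1 l j)
  · rw [Matrix.det_mul]
    exact mul_ne_zero (h2 t) (k2 t)
  · show γ t * δ t = 1
    rw [h3 t ht, k3 t ht, mul_one]
  · show γ t * δ t = M * N
    rw [h4 t ht, k4 t ht]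

theorem conn_transvection {i j : Fin 3} (hij : i ≠ j) (c : ℝ) : Conn (Matrix.transvection i j c) := by
  refine ⟨fun t => Matrix.transvection i j (stp t * c), fun k l => ?_, fun t => ?_, fun t ht => ?_,
    fun t ht => ?_⟩
  · simp only [Matrix.transvection, Matrix.add_apply, Matrix.single_apply]
    split_ifs
    · exact contDiff_const.add (stp_smooth.mul contDiff_const)
    · exact contDiff_const
  · rw [Matrix.det_transvection_of_ne _ _ hij]
    exact one_ne_zero
  · show Matrix.transvection i j (stp t * c) = 1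
    rw [stp_zero ht, zero_mul, Matrix.transvection_zero]
  · show Matrix.transvection i j (stp t * c) = Matrix.transvection i j c
    rw [stp_one ht, one_mul]

theorem conn_pos {d : Fin 3 → ℝ} (h : ∀ i, 0 < d i) : Conn (Matrix.diagonal d) := by
  refine ⟨fun t => Matrix.diagonal fun i => 1 + stp t * (d i - 1), fun k l => ?_, fun t => ?_,
    fun t ht => ?_, fun t ht => ?_⟩
  · simp only [Matrix.diagonal_apply]
    split_ifs
    · exact contDiff_const.add (stp_smooth.mul contDiff_const)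
    · exact contDiff_const
  · rw [Matrix.det_diagonal]
    refine Finset.prod_ne_zero_iff.2 fun i _ => ?_
    have h1 : 0 ≤ stp t := Real.smoothTransition.nonneg _
    have h2 : stp t ≤ 1 := Real.smoothTransition.le_one _
    have h3 := h i
    have : 0 < 1 + stp t * (d i - 1) := by
      rcases h1.eq_or_lt with h4 | h4
      · rw [← h4]; norm_num
      · have : 0 < stp t * d i := mul_pos h4 h3
        nlinarith
    exact this.ne'
  · show (Matrix.diagonal fun i => 1 + stp t * (d i - 1)) = 1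
    simp only [stp_zero ht, zero_mul, add_zero]
    exact Matrix.diagonal_one
  · show (Matrix.diagonal fun i => 1 + stp t * (d i - 1)) = Matrix.diagonal d
    simp only [stp_one ht, one_mul, add_sub_cancel]

theorem conn_one : Conn 1 := ⟨fun _ => 1, fun _ _ => contDiff_const, fun _ => by simp, fun _ _ => rfl,
  fun _ _ => rfl⟩

/-- the quarter turn -/
theorem conn_quarter {i j : Fin 3} (hij : i ≠ j) :
    Conn (Matrix.transvection i j 1 * Matrix.transvection j i (-1) * Matrix.transvection i j 1) :=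
  ((conn_transvection hij 1).mul (conn_transvection hij.symm (-1))).mul (conn_transvection hij 1)

theorem conn_s01 : Conn (Matrix.diagonal ![-1, -1, 1]) := by
  have h := (conn_quarter (i := 0) (j := 1) (by decide)).mul (conn_quarter (i := 0) (j := 1) (by decide))
  convert h using 1
  ext i j
  fin_cases i <;> fin_cases j <;>
    simp [Matrix.mul_apply, Fin.sum_univ_three, Matrix.transvection, Matrix.single_apply,
      Matrix.one_apply]

theorem conn_s02 : Conn (Matrix.diagonal ![-1, 1, -1]) := by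
  have h := (conn_quarter (i := 0) (j := 2) (by decide)).mul (conn_quarter (i := 0) (j := 2) (by decide))
  convert h using 1
  ext i j
  fin_cases i <;> fin_cases j <;>
    simp [Matrix.mul_apply, Fin.sum_univ_three, Matrix.transvection, Matrix.single_apply,
      Matrix.one_apply]

theorem conn_s12 : Conn (Matrix.diagonal ![1, -1, -1]) := by
  have h := (conn_quarter (i := 1) (j := 2) (by decide)).mul (conn_quarter (i := 1) (j := 2) (by decide))
  convert h using 1
  ext i j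
  fin_cases i <;> fin_cases j <;>
    simp [Matrix.mul_apply, Fin.sum_univ_three, Matrix.transvection, Matrix.single_apply,
      Matrix.one_apply]

theorem conn_diag {d : Fin 3 → ℝ} (h : 0 < (Matrix.diagonal d).det) : Conn (Matrix.diagonal d) := by
  rw [Matrix.det_diagonal, Fin.prod_univ_three] at h
  have h0 : d 0 ≠ 0 := fun e => by rw [e] at h; simp at h
  have h1 : d 1 ≠ 0 := fun e => by rw [e] at h; simp at h
  have h2 : d 2 ≠ 0 := fun e => by rw [e] at h; simp at h
  have key : ∀ s : Fin 3 → ℝ, Conn (Matrix.diagonal s) → (∀ i, 0 < d i * s i) → (∀ i, s i * s i = 1) →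
      Conn (Matrix.diagonal d) := by
    intro s hs hp hss
    have h3 := (conn_pos hp).mul hs
    rw [Matrix.diagonal_mul_diagonal] at h3
    have e : (fun i => d i * s i * s i) = d := by
      funext i
      rw [mul_assoc, hss, mul_one]
    rwa [e] at h3
  rcases lt_or_gt_of_ne h0 with a | a <;> rcases lt_or_gt_of_ne h1 with b | b <;>
    rcases lt_or_gt_of_ne h2 with c | c
  · exact absurd h (by have := mul_pos_of_neg_of_neg a b; nlinarith [mul_neg_of_pos_of_neg this c])
  · refine key _ conn_s01 (fun i => ?_) (fun i => ?_) <;> fin_cases i <;> simp [a, b, c]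
  · refine key _ conn_s02 (fun i => ?_) (fun i => ?_) <;> fin_cases i <;> simp [a, b, c]
  · exact absurd h (by have := mul_neg_of_neg_of_pos a b; nlinarith [mul_neg_of_neg_of_pos this c])
  · refine key _ conn_s12 (fun i => ?_) (fun i => ?_) <;> fin_cases i <;> simp [a, b, c]
  · exact absurd h (by have := mul_neg_of_pos_of_neg a b; nlinarith [mul_neg_of_neg_of_pos this c])
  · exact absurd h (by have := mul_pos a b; nlinarith [mul_neg_of_pos_of_neg this c])
  · refine conn_pos fun i => ?_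
    fin_cases i
    exacts [a, b, c]

theorem conn_of_det {M : MR} (h : 0 < M.det) : Conn M := by
  refine Matrix.diagonal_transvection_induction Conn M (fun D hD => ?_) (fun t => ?_)
    (fun A B hA hB => hA.mul hB)
  · exact conn_diag (by rw [hD]; exact h)
  · exact conn_transvection t.hij t.c

/-! ### The framing -/

theorem isUnit_of_det {M : MR} (h : M.det ≠ 0) : IsUnit M :=
  (Matrix.isUnit_iff_isUnit_det M).2 (isUnit_iff_ne_zero.2 h)

/-- the linear isomorphism of an invertible matrix -/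
noncomputable def lin (U : MRˣ) : E3 ≃L[ℝ] E3 :=
  ContinuousLinearEquiv.unitsEquiv ℝ E3 (Units.map
    ((Matrix.toEuclideanCLM (𝕜 := ℝ) (n := Fin 3) : MR ≃⋆ₐ[ℝ] (E3 →L[ℝ] E3)) : MR →* (E3 →L[ℝ] E3)) U)

theorem lin_apply (U : MRˣ) (z : E3) (i : Fin 3) : lin U z i = ∑ j, (U : MR) i j * z j := by
  rfl

theorem lin_mul (U V : MRˣ) (z : E3) : lin (U * V) z = lin U (lin V z) := by
  ext i
  rw [lin_apply, lin_apply]
  simp only [lin_apply, Units.val_mul, Matrix.mul_apply, Fin.sum_univ_three]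
  ring

/-- the real matrix of an integral matrix -/
def re (u : M3ˣ) : MRˣ := Units.map ((Int.castRingHom ℝ).mapMatrix : M3 →+* MR).toMonoidHom u

theorem re_apply (u : M3ˣ) (i j : Fin 3) : (re u : MR) i j = ((u : M3) i j : ℝ) := rfl

theorem act_eq_lin (u : M3ˣ) (z : E3) : act (u : M3) z = lin (re u) z := by
  ext i
  rw [lin_apply]
  rfl

theorem re_zpow (u : M3ˣ) (n : ℤ) : re (u ^ n) = re u ^ n := map_zpow _ _ _

theorem re_mul (u v : M3ˣ) : re (u * v) = re u * re v := map_mul _ _ _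

/-- the multiple of a path -/
theorem exists_path {u : M3ˣ} (h : 0 < ((re u⁻¹ : MRˣ) : MR).det) :
    ∃ γ : ℝ → MRˣ, (∀ i j, ContDiff ℝ ∞ fun t => (γ t : MR) i j) ∧
      (∀ t, t ≤ 1 / 3 → γ t = γ 0) ∧ ∀ t, 2 / 3 ≤ t → γ t = re u⁻¹ * γ 0 := by
  obtain ⟨γ, h1, h2, h3, h4⟩ := conn_of_det h
  refine ⟨fun t => (isUnit_of_det (h2 t)).unit, fun i j => h1 i j, fun t ht => ?_, fun t ht => ?_⟩
  · ext1
    show γ t = γ 0
    rw [h3 t ht, h3 0 (by norm_num)]
  · ext1
    show γ t = (re u⁻¹ : MR) * γ 0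
    rw [h4 t ht, h3 0 (by norm_num), mul_one]

section
variable (u : M3ˣ) (γ : ℝ → MRˣ)

/-- the framing as matrices -/
noncomputable def Q (t : ℝ) : MRˣ := re (u ^ (-⌊t⌋)) * γ (Int.fract t)

theorem Q_mon (t : ℝ) : re u * Q u γ (t + 1) = Q u γ t := by
  unfold Q
  rw [Int.fract_add_one, Int.floor_add_one, ← mul_assoc, ← re_mul]
  congr 2
  rw [← zpow_one_add]
  congr 1
  ring

theorem Q_eq (n : ℤ) {t : ℝ} (h1 : (n : ℝ) ≤ t) (h2 : t < n + 1) :
    Q u γ t = re (u ^ (-n)) * γ (t - n) := by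
  have h3 : ⌊t⌋ = n := Int.floor_eq_iff.2 ⟨h1, h2⟩
  unfold Q
  rw [← Int.self_sub_floor, h3]

variable {u γ}
theorem Q_near (h3 : ∀ t, t ≤ 1 / 3 → γ t = γ 0) (h4 : ∀ t, 2 / 3 ≤ t → γ t = re u⁻¹ * γ 0) (n : ℤ)
    {t : ℝ} (h1 : (n : ℝ) - 1 / 3 < t) (h2 : t < n + 1 / 3) : Q u γ t = re (u ^ (-n)) * γ 0 := by
  rcases le_or_gt (n : ℝ) t with h | h
  · rw [Q_eq u γ n h (by linarith), h3 _ (by linarith)]
  · rw [Q_eq u γ (n - 1) (by push_cast; linarith) (by push_cast; linarith),
      h4 _ (by push_cast; linarith), ← mul_assoc, ← re_mul]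
    congr 2
    rw [← zpow_sub_one]
    congr 1
    ring

theorem Q_smooth (hγ : ∀ i j, ContDiff ℝ ∞ fun t => (γ t : MR) i j)
    (h3 : ∀ t, t ≤ 1 / 3 → γ t = γ 0) (h4 : ∀ t, 2 / 3 ≤ t → γ t = re u⁻¹ * γ 0) (i j : Fin 3) :
    ContDiff ℝ ∞ fun t => (Q u γ t : MR) i j := by
  rw [contDiff_iff_contDiffAt]
  intro t
  rcases (Int.floor_le t).eq_or_lt with h | h
  · have h5 : (fun t => (Q u γ t : MR) i j) =ᶠ[𝓝 t]
        fun _ => ((re (u ^ (-⌊t⌋)) * γ 0 : MRˣ) : MR) i j := by
      have h6 : Ioo ((⌊t⌋ : ℝ) - 1 / 3) (⌊t⌋ + 1 / 3) ∈ 𝓝 t :=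
        Ioo_mem_nhds (by rw [h]; linarith) (by rw [h]; linarith)
      filter_upwards [h6] with s hs
      rw [Q_near h3 h4 _ hs.1 hs.2]
    exact contDiffAt_const.congr_of_eventuallyEq h5
  · have h5 : (fun t => (Q u γ t : MR) i j) =ᶠ[𝓝 t]
        fun s => ∑ k, (re (u ^ (-⌊t⌋)) : MR) i k * (γ (s - ⌊t⌋) : MR) k j := by
      have h6 : Ioo ((⌊t⌋ : ℝ)) (⌊t⌋ + 1) ∈ 𝓝 t := Ioo_mem_nhds h (Int.lt_floor_add_one t)
      filter_upwards [h6] with s hs
      rw [Q_eq u γ _ hs.1.le hs.2, Units.val_mul, Matrix.mul_apply]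
    refine ContDiffAt.congr_of_eventuallyEq ?_ h5
    have h7 : ContDiff ℝ ∞ fun s => ∑ k, (re (u ^ (-⌊t⌋)) : MR) i k * (γ (s - ⌊t⌋) : MR) k j :=
      ContDiff.sum fun k _ => contDiff_const.mul ((hγ k j).comp (contDiff_id.sub contDiff_const))
    exact h7.contDiffAt

end

theorem lin_smooth {q : ℝ → MRˣ} (h : ∀ i j, ContDiff ℝ ∞ fun t => (q t : MR) i j) :
    ContDiff ℝ ∞ fun a : ℝ × E3 => lin (q a.1) a.2 := by
  rw [contDiff_euclidean]
  intro i
  simp only [lin_apply]
  refine ContDiff.sum fun j _ => ((h i j).comp contDiff_fst).mul ?_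
  have h1 : ContDiff ℝ ∞ fun z : E3 => z j := contDiff_euclidean.1 contDiff_id j
  exact h1.comp contDiff_snd

/-- multiplication by a positive scalar -/
noncomputable def sc (c : ℝ) (hc : c ≠ 0) : E3 ≃L[ℝ] E3 := ContinuousLinearEquiv.smulLeft (Units.mk0 c hc)

theorem contDiff_const_smul_snd (c : ℝ) : ContDiff ℝ ∞ fun q : ℝ × E3 => c • q.2 := by fun_prop

theorem lin_smooth_smul {q : ℝ → MRˣ} (h : ∀ i j, ContDiff ℝ ∞ fun t => (q t : MR) i j) (c : ℝ) :
    ContDiff ℝ ∞ fun a : ℝ × E3 => lin (q a.1) (c • a.2) := by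
  have h5 : ContDiff ℝ ∞ fun a : ℝ × E3 => (a.1, c • a.2) :=
    contDiff_fst.prodMk (contDiff_const_smul_snd c)
  exact ContDiff.comp (g := fun a : ℝ × E3 => lin (q a.1) a.2) (f := fun a : ℝ × E3 => (a.1, c • a.2))
    (lin_smooth h) h5

theorem sc_trans (c : ℝ) (hc : c ≠ 0) (L : E3 ≃L[ℝ] E3) (z : E3) :
    ((sc c hc).trans L) z = L (c • z) := rfl

theorem vec_eq_zero_of_lt {x : E3} (h : IsLat x) (h1 : ‖x‖ < 1) : x = 0 := by
  obtain ⟨m, rfl⟩ := h
  rw [vec_eq_zero_of_norm h1, vec_zero]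

/-- **Framings exist.** -/
theorem exists_framing {A : M3} (hA : A.det = 1) : ∃ P : ℝ → E3 ≃L[ℝ] E3,
    (ContDiff ℝ ∞ fun q : ℝ × E3 => P q.1 q.2) ∧ (∀ t z, act A (P (t + 1) z) = P t z) ∧
      ∀ t z, z ≠ 0 → ‖z‖ < 2 → ¬ IsLat (P t z) := by
  have hu : IsUnit A := (Matrix.isUnit_iff_isUnit_det A).2 (by rw [hA]; exact isUnit_one)
  obtain ⟨u, rfl⟩ := hu
  have hd : 0 < ((re u⁻¹ : MRˣ) : MR).det := by
    have h1 : ((re u⁻¹ : MRˣ) : MR) = ((Int.castRingHom ℝ).mapMatrix ((u⁻¹ : M3ˣ) : M3)) := rfl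
    rw [h1, ← RingHom.map_det]
    have h2 : ((u⁻¹ : M3ˣ) : M3).det = 1 := by
      have h3 : ((u : M3) * ((u⁻¹ : M3ˣ) : M3)).det = 1 := by rw [Units.mul_inv, Matrix.det_one]
      rw [Matrix.det_mul, hA, one_mul] at h3
      exact h3
    rw [h2]
    simp
  obtain ⟨γ, h1, h3, h4⟩ := exists_path hd
  have hm : ∀ t z, act (u : M3) (lin (Q u γ (t + 1)) z) = lin (Q u γ t) z := fun t z => by
    rw [act_eq_lin, ← lin_mul, Q_mon]
  -- the norm on the period
  have hc : Continuous fun t : ℝ => (lin (γ t) : E3 →L[ℝ] E3) := by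
    have h5 : ContDiff ℝ ∞ fun t : ℝ => (lin (γ t) : E3 →L[ℝ] E3) :=
      clm_smooth_of (G := ℝ) (L := fun t => lin (γ t)) (lin_smooth h1)
    exact h5.continuous
  obtain ⟨C, hC⟩ := (isCompact_Icc (a := (0 : ℝ)) (b := 1)).exists_bound_of_continuousOn hc.continuousOn
  have hC0 : 0 ≤ C := (norm_nonneg _).trans (hC 0 (by norm_num))
  set c : ℝ := 1 / (2 * (C + 1)) with hcdef
  have hc0 : 0 < c := by positivity
  refine ⟨fun t => (sc c hc0.ne').trans (lin (Q u γ t)), ?_, ?_, ?_⟩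
  · have h6 := lin_smooth_smul (Q_smooth h1 h3 h4) c
    simp only [sc_trans]
    exact h6
  · intro t z
    rw [sc_trans, sc_trans]
    exact hm t _
  · intro t z hz hz2 hl
    rw [sc_trans] at hl
    have h5 : lin (Q u γ t) (c • z) = act ((u ^ (-⌊t⌋) : M3ˣ) : M3) (lin (γ (Int.fract t)) (c • z)) := by
      rw [act_eq_lin, ← lin_mul]
      rfl
    have h6 : IsLat (act ((u ^ (-⌊t⌋) : M3ˣ) : M3) (lin (γ (Int.fract t)) (c • z))) := by
      rw [← h5]
      exact hl
    have h7 := isLat_act (u ^ (-⌊t⌋))⁻¹ h6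
    rw [← act_mul, ← Units.val_mul, inv_mul_cancel, Units.val_one, FunBasic_act_one] at h7
    have h8 : ‖lin (γ (Int.fract t)) (c • z)‖ < 1 := by
      have h9 : ‖(lin (γ (Int.fract t)) : E3 →L[ℝ] E3) (c • z)‖ ≤ C * ‖c • z‖ :=
        ContinuousLinearMap.le_of_opNorm_le _
          (hC _ ⟨Int.fract_nonneg t, (Int.fract_lt_one t).le⟩) _
      rw [norm_smul, Real.norm_of_nonneg hc0.le] at h9
      have h10 : c * ‖z‖ < c * 2 := mul_lt_mul_of_pos_left hz2 hc0
      have h11 : C * (c * ‖z‖) ≤ C * (c * 2) := mul_le_mul_of_nonneg_left h10.le hC0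
      have h12 : C * (c * 2) < 1 := by
        rw [hcdef]
        have : C * (1 / (2 * (C + 1)) * 2) = C / (C + 1) := by field_simp
        rw [this, div_lt_one (by linarith)]
        linarith
      exact (h9.trans h11).trans_lt h12
    have h9 := vec_eq_zero_of_lt h7 h8
    have h10 : c • z = 0 := by
      have := (lin (γ (Int.fract t))).injective (h9.trans (map_zero _).symm)
      exact this
    rcases smul_eq_zero.1 h10 with h | h
    · exact hc0.ne' h
    · exact hz h

end Pool.Agent.CSE
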