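import Pool.Agent.CSG.LDa
import Pool.Agent.CSG.Defs

/-!
# CSE/Glue: a manifold from its parametrizations

`X` is a set, `Plot f z` says that `f : R^4 → X` is (near `z`) one of the allowed local parametrizations.
If any two of them which meet differ by a local diffeomorphism of `R^4`, then `X` has a structure of
smooth manifold for which all plots are local diffeomorphisms.
-/

open scoped Manifold ContDiff Topology
open Set Filter

namespace Pool.Agent.CSE

open Pool.Agent.CSG (E4 ld_congr ld_id ld_continuousAt ld_eventually ld_injOn ld_image_nhds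
  ld_of_comp_left ld_of_comp_right)

/-- local diffeomorphism of `R^4` -/
abbrev LD4 (h : E4 → E4) (z : E4) : Prop := IsLocalDiffeomorphAt (𝓡 4) (𝓡 4) ∞ h z

structure IsPlots {X : Type*} (Plot : (E4 → X) → E4 → Prop) : Prop where
  cover : ∀ x, ∃ f z, Plot f z ∧ f z = x
  key : ∀ {f z f' z'}, Plot f z → Plot f' z' → f z = f' z' →
    ∃ h : E4 → E4, LD4 h z ∧ h z = z' ∧ ∀ᶠ w in 𝓝 z, f w = f' (h w)
  inj : ∀ {f z}, Plot f z → ∃ S ∈ 𝓝 z, InjOn f S
  op : ∀ {f z}, Plot f z → ∀ᶠ w in 𝓝 z, Plot f w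

namespace IsPlots

variable {X : Type*} {Plot : (E4 → X) → E4 → Prop} (h : IsPlots Plot)
include h

theorem exists_cell (x : X) : ∃ (f : E4 → X) (z : E4) (S : Set E4), IsOpen S ∧ z ∈ S ∧ f z = x ∧
    InjOn f S ∧ ∀ w ∈ S, Plot f w := by
  obtain ⟨f, z, hf, hx⟩ := h.cover x
  obtain ⟨S, hS, hi⟩ := h.inj hf
  obtain ⟨S', hS', ho, hz⟩ := mem_nhds_iff.1 (inter_mem hS (h.op hf))
  exact ⟨f, z, S', ho, hz, hx, hi.mono fun w hw => (hS' hw).1, fun w hw => (hS' hw).2⟩

/-- the chosen parametrization at `x` -/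
noncomputable def F (x : X) : E4 → X := (h.exists_cell x).choose
noncomputable def Z (x : X) : E4 := (h.exists_cell x).choose_spec.choose
noncomputable def S (x : X) : Set E4 := (h.exists_cell x).choose_spec.choose_spec.choose
theorem spec (x : X) : IsOpen (h.S x) ∧ h.Z x ∈ h.S x ∧ h.F x (h.Z x) = x ∧
    InjOn (h.F x) (h.S x) ∧ ∀ w ∈ h.S x, Plot (h.F x) w :=
  (h.exists_cell x).choose_spec.choose_spec.choose_spec

/-- the chart at `x` -/
noncomputable def chart (x : X) : PartialEquiv X E4 :=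
  ((h.spec x).2.2.2.1.toPartialEquiv (h.F x) (h.S x)).symm

theorem chart_source (x : X) : (h.chart x).source = h.F x '' h.S x := rfl
theorem chart_target (x : X) : (h.chart x).target = h.S x := rfl
theorem chart_symm (x : X) (w : E4) : (h.chart x).symm w = h.F x w := rfl
theorem chart_apply {x : X} {w : E4} (hw : w ∈ h.S x) : h.chart x (h.F x w) = w := by
  have h1 : w ∈ (h.chart x).target := hw
  exact (h.chart x).right_inv h1

/-- transition near a point -/
theorem trans {x y : X} {z w : E4} (hz : z ∈ h.S x) (hw : w ∈ h.S y) (e : h.F x z = h.F y w) :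
    ∃ g : E4 → E4, LD4 g z ∧ g z = w ∧
      ∀ᶠ z' in 𝓝 z, z' ∈ ((h.chart x).symm.trans (h.chart y)).source ∧
        (h.chart x).symm.trans (h.chart y) z' = g z' := by
  obtain ⟨g, hg, hgz, hev⟩ := h.key ((h.spec x).2.2.2.2 z hz) ((h.spec y).2.2.2.2 w hw) e
  refine ⟨g, hg, hgz, ?_⟩
  have h1 : ∀ᶠ z' in 𝓝 z, g z' ∈ h.S y :=
    (ld_continuousAt hg).eventually ((h.spec y).1.mem_nhds (by rw [hgz]; exact hw))
  filter_upwards [hev, h1, (h.spec x).1.mem_nhds hz] with z' h2 h3 h4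
  have h5 : h.F x z' ∈ (h.chart y).source := ⟨g z', h3, h2.symm⟩
  refine ⟨⟨h4, h5⟩, ?_⟩
  show h.chart y (h.F x z') = g z'
  rw [h2, h.chart_apply h3]

theorem mem_trans {x y : X} {z : E4} (hz : z ∈ ((h.chart x).symm.trans (h.chart y)).source) :
    z ∈ h.S x ∧ ∃ w ∈ h.S y, h.F x z = h.F y w := by
  obtain ⟨h1, w, hw, e⟩ := hz
  exact ⟨h1, w, hw, e.symm⟩

noncomputable def core : ChartedSpaceCore E4 X where
  atlas := range h.chart
  chartAt := h.chart
  mem_chart_source x := ⟨h.Z x, (h.spec x).2.1, (h.spec x).2.2.1⟩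
  chart_mem_atlas x := ⟨x, rfl⟩
  open_source := by
    rintro _ _ ⟨x, rfl⟩ ⟨y, rfl⟩
    rw [isOpen_iff_mem_nhds]
    intro z hz
    obtain ⟨h1, w, hw, e⟩ := h.mem_trans hz
    obtain ⟨g, -, -, hev⟩ := h.trans h1 hw e
    exact hev.mono fun z' hz' => hz'.1
  continuousOn_toFun := by
    rintro _ _ ⟨x, rfl⟩ ⟨y, rfl⟩ z hz
    obtain ⟨h1, w, hw, e⟩ := h.mem_trans hz
    obtain ⟨g, hg, -, hev⟩ := h.trans h1 hw e
    exact ((ld_continuousAt hg).congr (hev.mono fun z' hz' => hz'.2.symm)).continuousWithinAt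

/-- the topology -/
@[reducible] noncomputable def top : TopologicalSpace X := h.core.toTopologicalSpace

/-- the charted space structure -/
@[reducible] noncomputable def chs : @ChartedSpace E4 _ X h.top := h.core.toChartedSpace

theorem mem_atlas (x : X) : letI := h.top; letI := h.chs
    ∃ e ∈ atlas E4 X, e.toPartialEquiv = h.chart x := by
  letI := h.top; letI := h.chs
  refine ⟨h.core.openPartialHomeomorph (h.chart x) ⟨x, rfl⟩, ?_, rfl⟩
  show _ ∈ ⋃ (e : PartialEquiv X E4) (he : e ∈ h.core.atlas), {h.core.openPartialHomeomorph e he}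
  simp only [mem_iUnion, mem_singleton_iff]
  exact ⟨h.chart x, ⟨x, rfl⟩, rfl⟩

theorem of_mem_atlas : letI := h.top; letI := h.chs
    ∀ e ∈ atlas E4 X, ∃ x, e.toPartialEquiv = h.chart x := by
  letI := h.top; letI := h.chs
  intro e he
  change e ∈ ⋃ (e : PartialEquiv X E4) (he : e ∈ h.core.atlas),
    {h.core.openPartialHomeomorph e he} at he
  simp only [mem_iUnion, mem_singleton_iff] at he
  obtain ⟨e', ⟨x, rfl⟩, rfl⟩ := he
  exact ⟨x, rfl⟩

theorem isManifold : letI := h.top; letI := h.chs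
    IsManifold (𝓡 4) ∞ X := by
  letI := h.top; letI := h.chs
  apply isManifold_of_contDiffOn
  intro e e' he he'
  obtain ⟨x, hx⟩ := h.of_mem_atlas e he
  obtain ⟨y, hy⟩ := h.of_mem_atlas e' he'
  intro z hz
  have hz1 : z ∈ (e.symm ≫ₕ e').source := hz.1
  have hz2 : z ∈ ((h.chart x).symm.trans (h.chart y)).source := by
    rw [← hx, ← hy]
    exact hz1
  obtain ⟨h1, w, hw, e1⟩ := h.mem_trans hz2
  obtain ⟨g, hg, -, hev⟩ := h.trans h1 hw e1
  have h2 : ContDiffAt ℝ ∞ g z := hg.contMDiffAt.contDiffAt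
  have h3 : ((𝓡 4 : ModelWithCorners ℝ E4 E4) ∘ (e.symm ≫ₕ e') ∘
      (𝓡 4 : ModelWithCorners ℝ E4 E4).symm) =ᶠ[𝓝 z] g := by
    filter_upwards [hev] with z' hz'
    have : (e.symm ≫ₕ e') z' = (h.chart x).symm.trans (h.chart y) z' := by
      rw [← hx, ← hy]
      rfl
    rw [← hz'.2, ← this]
    rfl
  exact (h2.congr_of_eventuallyEq h3).contDiffWithinAt

theorem F_ld (x : X) {w : E4} (hw : w ∈ h.S x) : letI := h.top; letI := h.chs
    IsLocalDiffeomorphAt (𝓡 4) (𝓡 4) ∞ (h.F x) w := by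
  letI := h.top; letI := h.chs
  haveI := h.isManifold
  obtain ⟨e, he, hx⟩ := h.mem_atlas x
  have h1 : e ∈ IsManifold.maximalAtlas (𝓡 4) ∞ X := IsManifold.subset_maximalAtlas he
  have hs : e.source = h.F x '' h.S x := by
    rw [show e.source = e.toPartialEquiv.source from rfl, hx]; rfl
  have ht : e.target = h.S x := by
    rw [show e.target = e.toPartialEquiv.target from rfl, hx]; rfl
  have hsy : ∀ w, e.symm w = h.F x w := fun w => by
    rw [show e.symm w = e.toPartialEquiv.symm w from rfl, hx]; rfl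
  refine ⟨{ toPartialEquiv := e.toPartialEquiv.symm
            open_source := e.open_target
            open_target := e.open_source
            contMDiffOn_toFun := contMDiffOn_symm_of_mem_maximalAtlas h1
            contMDiffOn_invFun := contMDiffOn_of_mem_maximalAtlas h1 }, ?_, ?_⟩
  · show w ∈ e.target
    rw [ht]; exact hw
  · intro w' _
    exact (hsy w').symm

theorem plot_ld {f : E4 → X} {z : E4} (hf : Plot f z) : letI := h.top; letI := h.chs
    IsLocalDiffeomorphAt (𝓡 4) (𝓡 4) ∞ f z := by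
  letI := h.top; letI := h.chs
  have hs := h.spec (f z)
  obtain ⟨g, hg, hgz, hev⟩ := h.key hf (hs.2.2.2.2 _ hs.2.1) hs.2.2.1.symm
  have h1 : IsLocalDiffeomorphAt (𝓡 4) (𝓡 4) ∞ (h.F (f z)) (g z) := by
    rw [hgz]
    exact h.F_ld (f z) hs.2.1
  have h2 : IsLocalDiffeomorphAt (𝓡 4) (𝓡 4) ∞ (h.F (f z) ∘ g) z :=
    IsLocalDiffeomorphAt.comp (hf := hg) (hg := h1) ..
  exact ld_congr h2 hev

theorem t2 (hsep : ∀ {f z f' z'}, Plot f z → Plot f' z' → f z ≠ f' z' →
      ∃ N ∈ 𝓝 z, ∃ N' ∈ 𝓝 z', ∀ a ∈ N, ∀ b ∈ N', f a ≠ f' b) : letI := h.top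
    T2Space X := by
  letI := h.top; letI := h.chs
  rw [t2Space_iff_disjoint_nhds]
  intro x y hxy
  have hx := h.spec x
  have hy := h.spec y
  obtain ⟨N, hN, N', hN', hd⟩ := hsep (hx.2.2.2.2 _ hx.2.1) (hy.2.2.2.2 _ hy.2.1)
    (by rw [hx.2.2.1, hy.2.2.1]; exact hxy)
  have h1 := ld_image_nhds (h.F_ld x hx.2.1) hN
  have h2 := ld_image_nhds (h.F_ld y hy.2.1) hN'
  rw [hx.2.2.1] at h1
  rw [hy.2.2.1] at h2
  rw [Filter.disjoint_iff]
  refine ⟨_, h1, _, h2, ?_⟩
  rw [Set.disjoint_left]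
  rintro _ ⟨a, ha, rfl⟩ ⟨b, hb, e⟩
  exact hd a ha b hb e.symm

end IsPlots

end Pool.Agent.CSE
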