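import Pool.Agent.CSG.Ext
import Pool.Agent.CSG.FunBasic
import Pool.Agent.TS.TwM

/-!
# CSE/Model: the surgered mapping torus as a set

`u` is an invertible integral matrix, `deck u n m` the deck transformations of `R^3 x R` over the mapping
torus, `CX u` the set (mapping torus minus circle) + sphere, `Hx` and `jx` the two parametrizations.
-/

open scoped Manifold ContDiff Topology
open Set Filter

namespace Pool.Agent.CSE

open Pool.Agent.CSG

abbrev M3 := Matrix (Fin 3) (Fin 3) ℤ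

/-- deck transformation -/
noncomputable def deck (u : M3ˣ) (n : ℤ) (m : Fin 3 → ℤ) (p : E3 × ℝ) : E3 × ℝ :=
  (act ((u ^ n : M3ˣ) : M3) p.1 + vec m, p.2 - n)

theorem act_add' (A : M3) (x y : E3) : act A (x + y) = act A x + act A y := by
  ext i
  simp only [act, PiLp.add_apply, Fin.sum_univ_three]
  ring

theorem deck_zero (u : M3ˣ) (p : E3 × ℝ) : deck u 0 0 p = p := by
  unfold deck
  rw [zpow_zero, Units.val_one, FunBasic_act_one, vec_zero, add_zero, Int.cast_zero, sub_zero]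

theorem deck_deck (u : M3ˣ) (n n' : ℤ) (m m' : Fin 3 → ℤ) (p : E3 × ℝ) :
    deck u n m (deck u n' m' p) = deck u (n + n') (((u ^ n : M3ˣ) : M3).mulVec m' + m) p := by
  unfold deck
  ext1
  · show act _ (act _ p.1 + vec m') + vec m = act _ p.1 + vec _
    rw [act_add', act_vec, ← act_mul, vec_add, zpow_add, Units.val_mul, add_assoc]
  · show p.2 - n' - n = p.2 - ((n + n' : ℤ) : ℝ)
    push_cast
    ring

theorem exists_deck_inv (u : M3ˣ) (n : ℤ) (m : Fin 3 → ℤ) :
    ∃ m', ∀ p, deck u (-n) m' (deck u n m p) = p := by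
  refine ⟨-((((u ^ (-n) : M3ˣ) : M3).mulVec m)), fun p => ?_⟩
  rw [deck_deck, neg_add_cancel, add_neg_cancel, deck_zero]

theorem isLat_act (u : M3ˣ) {x : E3} (h : IsLat x) : IsLat (act (u : M3) x) := by
  obtain ⟨m, rfl⟩ := h
  exact ⟨_, act_vec _ _⟩

theorem isLat_deck (u : M3ˣ) (n : ℤ) (m : Fin 3 → ℤ) (p : E3 × ℝ) :
    IsLat (deck u n m p).1 ↔ IsLat p.1 := by
  show IsLat (act _ p.1 + vec m) ↔ _
  rw [isLat_add_vec]
  refine ⟨fun h => ?_, fun h => isLat_act _ h⟩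
  have h1 := isLat_act (u ^ n)⁻¹ h
  rwa [← act_mul, ← Units.val_mul, inv_mul_cancel, Units.val_one, FunBasic_act_one] at h1

/-- the points of `R^3 x R` off the lines over the lattice -/
abbrev Off := {p : E3 × ℝ // ¬ IsLat p.1}

/-- same point of the mapping torus -/
def Rel (u : M3ˣ) : Setoid Off where
  r p q := ∃ n m, q.1 = deck u n m p.1
  iseqv :=
    { refl := fun p => ⟨0, 0, (deck_zero u p.1).symm⟩
      symm := by
        rintro p q ⟨n, m, h⟩
        obtain ⟨m', hm'⟩ := exists_deck_inv u n m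
        exact ⟨-n, m', by rw [h, hm']⟩
      trans := by
        rintro p q r ⟨n, m, h⟩ ⟨n', m', h'⟩
        exact ⟨n' + n, _, by rw [h', h, deck_deck]⟩ }

/-- the surgered mapping torus -/
def CX (u : M3ˣ) : Type := Quotient (Rel u) ⊕ S2

instance : Nonempty S2 := (NormedSpace.sphere_nonempty (E := E3) (x := 0) (r := 1)).2 (by norm_num) |>.to_subtype

open Classical in
/-- the parametrization of the mapping torus -/
noncomputable def Hx (u : M3ˣ) (p : E3 × ℝ) : CX u :=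
  if h : ¬ IsLat p.1 then Sum.inl (Quotient.mk (Rel u) ⟨p, h⟩) else Sum.inr (Classical.arbitrary S2)

theorem Hx_eq_iff {u : M3ˣ} {p q : E3 × ℝ} (hp : ¬ IsLat p.1) (hq : ¬ IsLat q.1) :
    Hx u p = Hx u q ↔ ∃ n m, q = deck u n m p := by
  unfold Hx
  rw [dif_pos hp, dif_pos hq]
  constructor
  · intro h
    have h1 := Sum.inl_injective h
    exact Quotient.exact h1
  · intro h
    congr 1
    exact Quotient.sound h

theorem Hx_deck {u : M3ˣ} {p : E3 × ℝ} (hp : ¬ IsLat p.1) (n : ℤ) (m : Fin 3 → ℤ) :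
    Hx u (deck u n m p) = Hx u p :=
  ((Hx_eq_iff hp ((isLat_deck u n m p).not.2 hp)).2 ⟨n, m, rfl⟩).symm

/-- the local argument `arg v / 2 pi` -/
noncomputable def ar (v : ℂ) : ℝ := Complex.arg v / (2 * Real.pi)

open Classical in
/-- the parametrization of the tube -/
noncomputable def jx (u : M3ˣ) (P : ℝ → E3 ≃L[ℝ] E3) (a : S2 × ℂ) : CX u :=
  if a.2 = 0 then Sum.inr a.1 else Hx u (P (ar a.2) (‖a.2‖ • (a.1 : E3)), ar a.2)

/-- framings (with a condition which makes the tube embedded) -/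
structure IsFr (u : M3ˣ) (P : ℝ → E3 ≃L[ℝ] E3) : Prop where
  smooth : ContDiff ℝ ∞ fun q : ℝ × E3 => P q.1 q.2
  mon : ∀ t z, act (u : M3) (P (t + 1) z) = P t z
  avoid : ∀ t z, z ≠ 0 → ‖z‖ < 2 → ¬ IsLat (P t z)

theorem IsFr.shift {u : M3ˣ} {P : ℝ → E3 ≃L[ℝ] E3} (hP : IsFr u P) (n : ℤ) (t : ℝ) (z : E3) :
    act ((u ^ n : M3ˣ) : M3) (P t z) = P (t - n) z := by
  induction n using Int.induction_on generalizing t with
  | zero => rw [zpow_zero, Units.val_one, FunBasic_act_one, Int.cast_zero, sub_zero]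
  | succ n ih =>
    have h1 := hP.mon (t - ((n : ℤ) : ℝ) - 1) z
    rw [sub_add_cancel] at h1
    rw [add_comm, zpow_add, zpow_one, Units.val_mul, act_mul, ih, h1]
    congr 1
    push_cast
    ring_nf
  | pred n ih =>
    have h1 := ih t
    have h2 := hP.mon (t - ((-(n : ℤ) : ℤ) : ℝ)) z
    rw [← h1] at h2
    have h3 : act ((u⁻¹ : M3ˣ) : M3) (act (u : M3) (P (t - ((-(n : ℤ) : ℤ) : ℝ) + 1) z)) =
        act ((u⁻¹ : M3ˣ) : M3) (act ((u ^ (-(n : ℤ)) : M3ˣ) : M3) (P t z)) := by rw [h2]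
    rw [← act_mul, ← act_mul, ← Units.val_mul, ← Units.val_mul, inv_mul_cancel, Units.val_one,
      FunBasic_act_one] at h3
    have h4 : u⁻¹ * u ^ (-(n : ℤ)) = u ^ (-(n : ℤ) - 1) := by
      rw [← zpow_neg_one, ← zpow_add]
      congr 1
      ring
    rw [← h4, ← h3]
    congr 1
    push_cast
    ring_nf

variable {u : M3ˣ} {P : ℝ → E3 ≃L[ℝ] E3}

theorem ray_ne {y : S2} {r : ℝ} (hr : 0 < r) : r • (y : E3) ≠ 0 := by
  intro h
  have h1 : ‖r • (y : E3)‖ = r := by
    rw [norm_smul, Real.norm_of_nonneg hr.le, norm_eq_of_mem_sphere, mul_one]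
  rw [h, norm_zero] at h1
  linarith

theorem norm_ray {y : S2} {r : ℝ} (hr : 0 < r) : ‖r • (y : E3)‖ = r := by
  rw [norm_smul, Real.norm_of_nonneg hr.le, norm_eq_of_mem_sphere, mul_one]

theorem off_ray (hP : IsFr u P) (t : ℝ) (y : S2) {r : ℝ} (h0 : 0 < r) (h1 : r < 1) :
    ¬ IsLat (P t (r • (y : E3))) :=
  hP.avoid t _ (ray_ne h0) (by rw [norm_ray h0]; linarith)

theorem ar_ex {t r : ℝ} (h0 : 0 < r) : ∃ k : ℤ, ar (r * TS.ex t) = t - k := by
  have h1 := TS.ex_arg (r * TS.ex t)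
  have hn : ‖(r : ℂ) * TS.ex t‖ = r := by
    rw [norm_mul, TS.ex_norm, mul_one, Complex.norm_real, Real.norm_of_nonneg h0.le]
  rw [hn] at h1
  have h2 : (r : ℂ) ≠ 0 := by exact_mod_cast h0.ne'
  have h3 := mul_left_cancel₀ h2 h1
  obtain ⟨n, hn⟩ := TS.ex_eq_iff.1 h3
  exact ⟨n, by unfold ar; linarith⟩

theorem jx_glue (hP : IsFr u P) (t r : ℝ) (y : S2) (h0 : 0 < r) (h1 : r < 1) :
    jx u P (y, r * TS.ex t) = Hx u (P t (r • (y : E3)), t) := by
  have hn : ‖(r : ℂ) * TS.ex t‖ = r := by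
    rw [norm_mul, TS.ex_norm, mul_one, Complex.norm_real, Real.norm_of_nonneg h0.le]
  have hne : (r : ℂ) * TS.ex t ≠ 0 := by
    intro h
    rw [h, norm_zero] at hn
    linarith
  obtain ⟨k, hk⟩ := ar_ex (t := t) h0
  unfold jx
  rw [if_neg hne]
  show Hx u (P (ar (r * TS.ex t)) (‖(r : ℂ) * TS.ex t‖ • (y : E3)), ar (r * TS.ex t)) = _
  rw [hn, hk]
  have h2 : (P (t - k) (r • (y : E3)), t - (k : ℝ)) = deck u k 0 (P t (r • (y : E3)), t) := by
    unfold deck
    ext1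
    · show P (t - k) (r • (y : E3)) = act _ (P t (r • (y : E3))) + vec 0
      rw [hP.shift, vec_zero, add_zero]
    · rfl
  rw [h2]
  exact Hx_deck (off_ray hP t y h0 h1) k 0

theorem eq_polar (v : ℂ) : v = (‖v‖ : ℂ) * TS.ex (ar v) := (TS.ex_arg v).symm

/-- the tube in terms of `Hx` -/
theorem jx_of_ne {a : S2 × ℂ} (h : a.2 ≠ 0) :
    jx u P a = Hx u (P (ar a.2) (‖a.2‖ • (a.1 : E3)), ar a.2) := by
  unfold jx
  rw [if_neg h]

theorem jx_zero (y : S2) : jx u P (y, 0) = Sum.inr y := by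
  unfold jx
  rw [if_pos rfl]

theorem Hx_ne_inr {p : E3 × ℝ} (hp : ¬ IsLat p.1) (y : S2) : Hx u p ≠ Sum.inr y := by
  unfold Hx
  rw [dif_pos hp]
  exact Sum.inl_ne_inr

theorem off_tube (hP : IsFr u P) {a : S2 × ℂ} (h : a.2 ≠ 0) (h1 : ‖a.2‖ < 1) :
    ¬ IsLat (P (ar a.2) (‖a.2‖ • (a.1 : E3))) :=
  off_ray hP _ _ (norm_pos_iff.2 h) h1

theorem ar_range (v : ℂ) : -(1 / 2) < ar v ∧ ar v ≤ 1 / 2 := by
  have hpi := Real.pi_pos
  unfold ar
  constructor
  · rw [lt_div_iff₀ (by positivity)]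
    have := Complex.neg_pi_lt_arg v
    linarith
  · rw [div_le_iff₀ (by positivity)]
    have := Complex.arg_le_pi v
    linarith

/-- rays in the tube which give the same point -/
theorem ray_inj {y y' : S2} {r r' : ℝ} (h0 : 0 < r) (h0' : 0 < r') (h : r • (y : E3) = r' • (y' : E3)) :
    r = r' ∧ y = y' := by
  have h1 : r = r' := by
    rw [← norm_ray (y := y) h0, h, norm_ray h0']
  refine ⟨h1, ?_⟩
  rw [h1] at h
  exact Subtype.ext (smul_right_injective E3 h0'.ne' h)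

theorem jx_inj (hP : IsFr u P) {a b : S2 × ℂ} (ha : ‖a.2‖ < 1) (hb : ‖b.2‖ < 1)
    (h : jx u P a = jx u P b) : a = b := by
  obtain ⟨y, v⟩ := a
  obtain ⟨y', v'⟩ := b
  by_cases hv : v = 0
  · subst hv
    by_cases hv' : v' = 0
    · subst hv'
      rw [jx_zero, jx_zero] at h
      rw [Sum.inr_injective h]
    · rw [jx_zero, jx_of_ne hv'] at h
      exact absurd h.symm (Hx_ne_inr (off_tube (a := (y', v')) hP hv' hb) _)
  · by_cases hv' : v' = 0
    · subst hv'
      rw [jx_zero, jx_of_ne hv] at h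
      exact absurd h (Hx_ne_inr (off_tube (a := (y, v)) hP hv ha) _)
    · rw [jx_of_ne hv, jx_of_ne hv'] at h
      obtain ⟨n, m, e⟩ := (Hx_eq_iff (off_tube (a := (y, v)) hP hv ha)
        (off_tube (a := (y', v')) hP hv' hb)).1 h
      have e1 : P (ar v') (‖v'‖ • (y' : E3)) = act _ (P (ar v) (‖v‖ • (y : E3))) + vec m :=
        congrArg Prod.fst e
      have e2 : ar v' = ar v - n := congrArg Prod.snd e
      have hn : n = 0 := by
        have h1 := ar_range v
        have h2 := ar_range v'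
        have h3 : |(n : ℝ)| < 1 := by
          rw [abs_lt]
          constructor <;> linarith [h1.1, h1.2, h2.1, h2.2]
        have h4 : |n| < 1 := by exact_mod_cast h3
        exact Int.abs_lt_one_iff.1 h4
      subst hn
      rw [Int.cast_zero, sub_zero] at e2
      rw [zpow_zero, Units.val_one, FunBasic_act_one, e2] at e1
      have e3 : P (ar v) (‖v'‖ • (y' : E3) - ‖v‖ • (y : E3)) = vec m := by
        rw [map_sub, e1]
        abel
      have e4 : ‖v'‖ • (y' : E3) - ‖v‖ • (y : E3) = 0 := by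
        by_contra hne
        refine hP.avoid (ar v) _ hne ?_ ⟨m, e3⟩
        refine (norm_sub_le _ _).trans_lt ?_
        rw [norm_ray (norm_pos_iff.2 hv'), norm_ray (norm_pos_iff.2 hv)]
        show ‖v'‖ + ‖v‖ < 2
        have ha' : ‖v‖ < 1 := ha
        have hb' : ‖v'‖ < 1 := hb
        linarith
      obtain ⟨h5, h6⟩ := ray_inj (norm_pos_iff.2 hv') (norm_pos_iff.2 hv) (sub_eq_zero.1 e4)
      rw [h6, eq_polar v, eq_polar v', h5, e2]

theorem Hx_per {x : E3} (t : ℝ) (m : Fin 3 → ℤ) (hx : ¬ IsLat x) :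
    Hx u (x + vec m, t) = Hx u (x, t) := by
  have h : (x + vec m, t) = deck u 0 m (x, t) := by
    unfold deck
    rw [zpow_zero, Units.val_one, FunBasic_act_one, Int.cast_zero, sub_zero]
  rw [h]
  exact Hx_deck (p := (x, t)) hx 0 m

theorem Hx_mon {x : E3} (t : ℝ) (hx : ¬ IsLat x) : Hx u (act (u : M3) x, t) = Hx u (x, t + 1) := by
  have h : (act (u : M3) x, t) = deck u 1 0 (x, t + 1) := by
    unfold deck
    rw [zpow_one, vec_zero, add_zero, Int.cast_one, add_sub_cancel_right]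
  rw [h]
  exact Hx_deck (p := (x, t + 1)) hx 1 0

theorem Hx_inj {x y : E3} {s t : ℝ} (hx : ¬ IsLat x) (hy : ¬ IsLat y) (hs : 0 ≤ s) (hs' : s < 1)
    (ht : 0 ≤ t) (ht' : t < 1) (h : Hx u (x, s) = Hx u (y, t)) : s = t ∧ ∃ m, y = x + vec m := by
  obtain ⟨n, m, e⟩ := (Hx_eq_iff (p := (x, s)) (q := (y, t)) hx hy).1 h
  have e1 : y = act _ x + vec m := congrArg Prod.fst e
  have e2 : t = s - n := congrArg Prod.snd e
  have hn : n = 0 := by
    have h3 : |(n : ℝ)| < 1 := by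
      rw [abs_lt]
      constructor <;> linarith
    have h4 : |n| < 1 := by exact_mod_cast h3
    exact Int.abs_lt_one_iff.1 h4
  subst hn
  rw [zpow_zero, Units.val_one, FunBasic_act_one] at e1
  rw [Int.cast_zero, sub_zero] at e2
  exact ⟨e2.symm, m, e1⟩

theorem cover (x : CX u) : (∃ y, x = jx u P (y, 0)) ∨ ∃ p : E3 × ℝ, ¬ IsLat p.1 ∧ x = Hx u p := by
  rcases x with q | y
  · right
    induction q using Quotient.inductionOn with
    | _ p =>
      refine ⟨p.1, p.2, ?_⟩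
      unfold Hx
      rw [dif_pos p.2]
  · left
    exact ⟨y, (jx_zero y).symm⟩

/-- two points which are not equivalent have neighbourhoods without equivalent points -/
theorem deck_sep {p q : E3 × ℝ} (h : ¬ ∃ n m, q = deck u n m p) :
    ∀ᶠ r in 𝓝 (p, q), ¬ ∃ n m, r.2 = deck u n m r.1 := by
  -- the possible `n`
  have h1 : ∀ n : ℤ, ∀ᶠ r : (E3 × ℝ) × (E3 × ℝ) in 𝓝 (p, q), ¬ ∃ m, r.2 = deck u n m r.1 := by
    intro n
    have hc : IsClosed {r : (E3 × ℝ) × (E3 × ℝ) | r.2.2 = r.1.2 - n ∧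
        IsLat (r.2.1 - act ((u ^ n : M3ˣ) : M3) r.1.1)} := by
      refine IsClosed.inter ?_ ?_
      · exact isClosed_eq (by fun_prop) (by fun_prop)
      · refine isClosed_isLat.preimage (f := fun r : (E3 × ℝ) × (E3 × ℝ) =>
          r.2.1 - act ((u ^ n : M3ˣ) : M3) r.1.1) ?_
        exact (continuous_fst.comp continuous_snd).sub
          ((FunBasic_act_smooth _).continuous.comp (continuous_fst.comp continuous_fst))
    have hset : ∀ r : (E3 × ℝ) × (E3 × ℝ), (∃ m, r.2 = deck u n m r.1) ↔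
        r.2.2 = r.1.2 - n ∧ IsLat (r.2.1 - act ((u ^ n : M3ˣ) : M3) r.1.1) := by
      intro r
      constructor
      · rintro ⟨m, hm⟩
        rw [hm]
        refine ⟨rfl, m, ?_⟩
        show act _ r.1.1 + vec m - _ = _
        abel
      · rintro ⟨h2, m, hm⟩
        refine ⟨m, ?_⟩
        unfold deck
        ext1
        · show r.2.1 = _
          rw [← hm]
          exact (add_sub_cancel _ _).symm
        · exact h2
    have hn : ¬ ∃ m, q = deck u n m p := fun ⟨m, hm⟩ => h ⟨n, m, hm⟩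
    have := hc.isOpen_compl.mem_nhds (x := (p, q)) (fun hr => hn ((hset (p, q)).2 hr))
    filter_upwards [this] with r hr hr2
    exact hr ((hset r).1 hr2)
  obtain ⟨N, hN⟩ := exists_nat_gt (|q.2 - p.2| + 1)
  have h2 : ∀ᶠ r : (E3 × ℝ) × (E3 × ℝ) in 𝓝 (p, q), ∀ n ∈ Finset.Icc (-(N : ℤ)) N,
      ¬ ∃ m, r.2 = deck u n m r.1 := by
    rw [Filter.eventually_all_finset]
    exact fun n _ => h1 n
  have h3 : ∀ᶠ r : (E3 × ℝ) × (E3 × ℝ) in 𝓝 (p, q), |r.2.2 - r.1.2| < N := by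
    have hc : Continuous fun r : (E3 × ℝ) × (E3 × ℝ) => |r.2.2 - r.1.2| := by fun_prop
    exact hc.continuousAt.eventually_lt continuousAt_const (show |q.2 - p.2| < N by linarith)
  filter_upwards [h2, h3] with r h4 h5
  rintro ⟨n, m, e⟩
  refine h4 n ?_ ⟨m, e⟩
  have e2 : r.2.2 = r.1.2 - n := congrArg Prod.snd e
  have h6 : |(n : ℝ)| < N := by
    rw [e2] at h5
    rwa [sub_sub_cancel_left, abs_neg] at h5
  have h7 : |n| < N := by exact_mod_cast h6
  rw [abs_lt] at h7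
  exact Finset.mem_Icc.2 ⟨h7.1.le, h7.2.le⟩

end Pool.Agent.CSE
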