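import Pool.Agent.CSE.Glue
import Pool.Agent.CSE.Model
import Pool.Agent.TS.OfCoreM
import Pool.Agent.CSG.LDb
import Pool.Agent.CSG.SFrame

/-!
# CSE/Plots: the surgered mapping torus as a manifold
-/

open scoped Manifold ContDiff Topology
open Set Filter

namespace Pool.Agent.CSE

open Pool.Agent.CSG

/-- local diffeomorphisms into `R^3 x R` and into `S^2 x C` -/
abbrev LDH (g : E4 → E3 × ℝ) (z : E4) : Prop :=
  IsLocalDiffeomorphAt (𝓡 4) 𝓘(ℝ, E3 × ℝ) ∞ g z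
abbrev LDJ (g : E4 → S2 × ℂ) (z : E4) : Prop :=
  IsLocalDiffeomorphAt (𝓡 4) ((𝓡 2).prod 𝓘(ℝ, ℂ)) ∞ g z

variable {u : M3ˣ} {P : ℝ → E3 ≃L[ℝ] E3}

/-- plots of the two kinds -/
def PH (u : M3ˣ) (f : E4 → CX u) (z : E4) : Prop :=
  ∃ g : E4 → E3 × ℝ, LDH g z ∧ ¬ IsLat (g z).1 ∧ f =ᶠ[𝓝 z] fun w => Hx u (g w)
def PJ (u : M3ˣ) (P : ℝ → E3 ≃L[ℝ] E3) (f : E4 → CX u) (z : E4) : Prop :=
  ∃ g : E4 → S2 × ℂ, LDJ g z ∧ ‖(g z).2‖ < 1 ∧ f =ᶠ[𝓝 z] fun w => jx u P (g w)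
def Plt (u : M3ˣ) (P : ℝ → E3 ≃L[ℝ] E3) (f : E4 → CX u) (z : E4) : Prop :=
  PH u f z ∨ PJ u P f z

theorem isOpen_off : IsOpen {p : E3 × ℝ | ¬ IsLat p.1} :=
  isClosed_isLat.isOpen_compl.preimage continuous_fst

theorem off_eventually {g : E4 → E3 × ℝ} {z : E4} (hg : ContinuousAt g z) (h : ¬ IsLat (g z).1) :
    ∀ᶠ w in 𝓝 z, ¬ IsLat (g w).1 := hg.eventually (isOpen_off.mem_nhds h)

theorem small_eventually {g : E4 → S2 × ℂ} {z : E4} (hg : ContinuousAt g z) (h : ‖(g z).2‖ < 1) :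
    ∀ᶠ w in 𝓝 z, ‖(g w).2‖ < 1 := by
  have : IsOpen {a : S2 × ℂ | ‖a.2‖ < 1} := isOpen_lt (by fun_prop) continuous_const
  exact hg.eventually (this.mem_nhds h)

/-- general composition -/
theorem exists_h {E : Type*} [NormedAddCommGroup E] [NormedSpace ℝ E] {H : Type*}
    [TopologicalSpace H] {J : ModelWithCorners ℝ E H} {M : Type*} [TopologicalSpace M]
    [ChartedSpace H M] {g g' : E4 → M} {d : M → M} {z z' : E4}
    (hg : IsLocalDiffeomorphAt (𝓡 4) J ∞ g z) (hg' : IsLocalDiffeomorphAt (𝓡 4) J ∞ g' z')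
    (hd : IsLocalDiffeomorphAt J J ∞ d (g z)) (e : d (g z) = g' z') :
    ∃ h : E4 → E4, LD4 h z ∧ h z = z' ∧ ∀ᶠ w in 𝓝 z, g' (h w) = d (g w) := by
  have h1 : IsLocalDiffeomorphAt J (𝓡 4) ∞ hg'.localInverse (d (g z)) := by
    rw [e]
    exact hg'.localInverse_isLocalDiffeomorphAt
  have h2 : IsLocalDiffeomorphAt (𝓡 4) J ∞ (d ∘ g) z :=
    IsLocalDiffeomorphAt.comp (hf := hg) (hg := hd) ..
  have h3 : IsLocalDiffeomorphAt (𝓡 4) (𝓡 4) ∞ (hg'.localInverse ∘ (d ∘ g)) z :=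
    IsLocalDiffeomorphAt.comp (hf := h2) (hg := h1) ..
  refine ⟨_, h3, ?_, ?_⟩
  · show hg'.localInverse (d (g z)) = z'
    rw [e]
    exact hg'.localInverse_left_inv hg'.localInverse_mem_target
  · have h4 := hg'.localInverse_eventuallyEq_right
    rw [← e] at h4
    have h5 : Tendsto (d ∘ g) (𝓝 z) (𝓝 (d (g z))) := ld_continuousAt h2
    filter_upwards [h5.eventually h4] with w hw
    exact hw

theorem deck_ld (u : M3ˣ) (n : ℤ) (m : Fin 3 → ℤ) (p : E3 × ℝ) :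
    IsLocalDiffeomorphAt 𝓘(ℝ, E3 × ℝ) 𝓘(ℝ, E3 × ℝ) ∞ (deck u n m) p := by
  obtain ⟨m', hm'⟩ := exists_deck_inv u n m
  obtain ⟨m'', hm''⟩ := exists_deck_inv u (-n) m'
  have hs : ∀ n m, ContDiff ℝ ∞ (deck u n m) := fun n m =>
    (((FunBasic_act_smooth _).comp contDiff_fst).add contDiff_const).prodMk
      (contDiff_snd.sub contDiff_const)
  have hr : ∀ p, deck u n m (deck u (-n) m' p) = p := by
    intro p
    have h1 := hm' (deck u (-n) m' p)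
    have h2 : deck u (- -n) m'' (deck u (-n) m' (deck u n m (deck u (-n) m' p))) =
        deck u (- -n) m'' (deck u (-n) m' p) := by rw [h1]
    rwa [hm'', hm''] at h2
  exact ld_of_perm (f := (⟨deck u n m, deck u (-n) m', hm', hr⟩ : E3 × ℝ ≃ E3 × ℝ))
    (hs _ _) (hs _ _) p

/-- the map `(y, v) ↦ (P t (|v| y), t)`, `t` the argument of `v` near `t₀` -/
noncomputable def Th (P : ℝ → E3 ≃L[ℝ] E3) (t₀ : ℝ) (a : S2 × ℂ) : E3 × ℝ :=
  (P (TS.OfCoreM_larg t₀ a.2) (‖a.2‖ • (a.1 : E3)), TS.OfCoreM_larg t₀ a.2)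

theorem P_ld (hP : IsFr u P) (q : E3 × ℝ) :
    IsLocalDiffeomorphAt 𝓘(ℝ, E3 × ℝ) 𝓘(ℝ, E3 × ℝ) ∞ (fun q : E3 × ℝ => (P q.2 q.1, q.2)) q := by
  have h1 : ContDiff ℝ ∞ fun q : E3 × ℝ => (P q.2).toEquiv q.1 :=
    hP.smooth.comp (contDiff_snd.prodMk contDiff_fst)
  have h2 : ContDiff ℝ ∞ fun q : E3 × ℝ => (P q.2).toEquiv.symm q.1 :=
    (smooth_symm_lin_gen hP.smooth).comp (contDiff_snd.prodMk contDiff_fst)
  exact ld_of_family (g := fun t => (P t).toEquiv) h1 h2 q.1 q.2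

theorem Th_ld (hP : IsFr u P) {y : S2} {v : ℂ} (hv : v ≠ 0) :
    IsLocalDiffeomorphAt ((𝓡 2).prod 𝓘(ℝ, ℂ)) 𝓘(ℝ, E3 × ℝ) ∞ (Th P (ar v)) (y, v) := by
  have h1 := TS.OfCoreM_m1_ld y (t := ar v) (norm_pos_iff.2 hv)
  rw [← eq_polar v] at h1
  exact IsLocalDiffeomorphAt.comp (hf := h1) (hg := P_ld hP _) ..

theorem Th_self (y : S2) {v : ℂ} (hv : v ≠ 0) :
    Th P (ar v) (y, v) = (P (ar v) (‖v‖ • (y : E3)), ar v) := by
  have h1 : TS.OfCoreM_larg (ar v) v = ar v := by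
    have h2 := TS.OfCoreM_larg_ex (c := ar v) (θ := ar v) (by simp) (norm_pos_iff.2 hv)
    rwa [← eq_polar v] at h2
  unfold Th
  show (P (TS.OfCoreM_larg (ar v) v) (‖v‖ • (y : E3)), TS.OfCoreM_larg (ar v) v) = _
  rw [h1]

theorem jx_Th (hP : IsFr u P) (t₀ : ℝ) {a : S2 × ℂ} (h0 : a.2 ≠ 0) (h1 : ‖a.2‖ < 1) :
    jx u P a = Hx u (Th P t₀ a) := by
  have h2 := jx_glue hP (TS.OfCoreM_larg t₀ a.2) ‖a.2‖ a.1 (norm_pos_iff.2 h0) h1
  rw [TS.OfCoreM_ex_larg] at h2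
  exact h2

/-- a plot of the second kind off the sphere is a plot of the first kind -/
theorem PJ_PH (hP : IsFr u P) {f : E4 → CX u} {z : E4} {g : E4 → S2 × ℂ} (hg : LDJ g z)
    (h1 : ‖(g z).2‖ < 1) (h0 : (g z).2 ≠ 0) (hf : f =ᶠ[𝓝 z] fun w => jx u P (g w)) : PH u f z := by
  have hc := ld_continuousAt hg
  have h2 : LDH (Th P (ar (g z).2) ∘ g) z :=
    IsLocalDiffeomorphAt.comp (hf := hg) (hg := Th_ld hP (y := (g z).1) h0) ..
  refine ⟨_, h2, ?_, ?_⟩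
  · show ¬ IsLat (Th P (ar (g z).2) (g z)).1
    rw [show g z = ((g z).1, (g z).2) from rfl, Th_self _ h0]
    exact off_tube hP h0 h1
  · have h3 : ∀ᶠ w in 𝓝 z, (g w).2 ≠ 0 := by
      have : IsOpen {a : S2 × ℂ | a.2 ≠ 0} := isOpen_ne_fun continuous_snd continuous_const
      exact hc.eventually (this.mem_nhds h0)
    filter_upwards [hf, h3, small_eventually hc h1] with w e1 e2 e3
    rw [e1]
    exact jx_Th hP _ e2 e3

theorem key_HH {f f' : E4 → CX u} {z z' : E4} (hf : PH u f z) (hf' : PH u f' z')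
    (e : f z = f' z') : ∃ h : E4 → E4, LD4 h z ∧ h z = z' ∧ ∀ᶠ w in 𝓝 z, f w = f' (h w) := by
  obtain ⟨g, hg, ho, hfg⟩ := hf
  obtain ⟨g', hg', ho', hfg'⟩ := hf'
  rw [hfg.self_of_nhds, hfg'.self_of_nhds] at e
  obtain ⟨n, m, hd⟩ := (Hx_eq_iff ho ho').1 e
  obtain ⟨h, h1, h2, h3⟩ := exists_h hg hg' (deck_ld u n m _) hd.symm
  refine ⟨h, h1, h2, ?_⟩
  have h4 : Tendsto h (𝓝 z) (𝓝 z') := by
    have := ld_continuousAt h1
    rwa [ContinuousAt, h2] at this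
  filter_upwards [hfg, h4.eventually hfg', h3, off_eventually (ld_continuousAt hg) ho] with w a b c o
  rw [a, b, c, Hx_deck o]

theorem key_JJ (hP : IsFr u P) {f f' : E4 → CX u} {z z' : E4} (hf : PJ u P f z)
    (hf' : PJ u P f' z') (e : f z = f' z') :
    ∃ h : E4 → E4, LD4 h z ∧ h z = z' ∧ ∀ᶠ w in 𝓝 z, f w = f' (h w) := by
  obtain ⟨g, hg, ho, hfg⟩ := hf
  obtain ⟨g', hg', ho', hfg'⟩ := hf'
  rw [hfg.self_of_nhds, hfg'.self_of_nhds] at e
  have hd := jx_inj hP ho ho' e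
  obtain ⟨h, h1, h2, h3⟩ := exists_h (d := id) hg hg' (ld_id _) hd
  refine ⟨h, h1, h2, ?_⟩
  have h4 : Tendsto h (𝓝 z) (𝓝 z') := by
    have := ld_continuousAt h1
    rwa [ContinuousAt, h2] at this
  filter_upwards [hfg, h4.eventually hfg', h3] with w a b c
  rw [a, b, c]
  rfl

/-- in a `J` plot which meets an `H` plot, `v ≠ 0` -/
theorem PJ_of_eq (hP : IsFr u P) {f f' : E4 → CX u} {z z' : E4} (hf : PH u f z)
    (hf' : PJ u P f' z') (e : f z = f' z') : PH u f' z' := by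
  obtain ⟨g, hg, ho, hfg⟩ := hf
  obtain ⟨g', hg', ho', hfg'⟩ := hf'
  refine PJ_PH hP hg' ho' ?_ hfg'
  intro h0
  rw [hfg.self_of_nhds, hfg'.self_of_nhds] at e
  have e' : Hx u (g z) = jx u P ((g' z').1, (g' z').2) := e
  rw [h0, jx_zero] at e'
  exact Hx_ne_inr ho _ e'

theorem key (hP : IsFr u P) {f f' : E4 → CX u} {z z' : E4} (hf : Plt u P f z)
    (hf' : Plt u P f' z') (e : f z = f' z') :
    ∃ h : E4 → E4, LD4 h z ∧ h z = z' ∧ ∀ᶠ w in 𝓝 z, f w = f' (h w) := by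
  rcases hf with hf | hf
  · rcases hf' with hf' | hf'
    · exact key_HH hf hf' e
    · exact key_HH hf (PJ_of_eq hP hf hf' e) e
  · rcases hf' with hf' | hf'
    · exact key_HH (PJ_of_eq hP hf' hf e.symm) hf' e
    · exact key_JJ hP hf hf' e

theorem vec_eq_zero_of_norm {m : Fin 3 → ℤ} (h : ‖vec m‖ < 1) : m = 0 := by
  by_contra hm
  have h1 : vec m ≠ 0 := by
    intro h0
    apply hm
    funext i
    have := congrArg (fun x : E3 => x i) h0
    have h2 : ((m i : ℤ) : ℝ) = 0 := this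
    exact_mod_cast h2
  exact not_isLat_of_norm h1 h ⟨m, rfl⟩

theorem inj_H {p : E3 × ℝ} : ∃ S ∈ 𝓝 p, InjOn (Hx u) (S ∩ {p | ¬ IsLat p.1}) := by
  refine ⟨Metric.ball p (1 / 2), Metric.ball_mem_nhds p (by norm_num), ?_⟩
  rintro a ⟨ha, ha'⟩ b ⟨hb, hb'⟩ e
  obtain ⟨n, m, e1⟩ := (Hx_eq_iff ha' hb').1 e
  have hab : dist b a < 1 := by
    calc dist b a ≤ dist b p + dist p a := dist_triangle _ _ _
      _ < 1 / 2 + 1 / 2 := add_lt_add hb (by rw [dist_comm]; exact ha)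
      _ = 1 := by norm_num
  have h1 : ‖b.1 - a.1‖ < 1 := by
    rw [← dist_eq_norm]
    exact (le_max_left _ _).trans_lt hab
  have h2 : |b.2 - a.2| < 1 := by
    rw [← Real.dist_eq]
    exact (le_max_right _ _).trans_lt hab
  have e2 : b.2 = a.2 - n := congrArg Prod.snd e1
  have e3 : b.1 = act _ a.1 + vec m := congrArg Prod.fst e1
  have hn : n = 0 := by
    rw [e2, sub_sub_cancel_left, abs_neg] at h2
    have h4 : |n| < 1 := by exact_mod_cast h2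
    exact Int.abs_lt_one_iff.1 h4
  subst hn
  rw [zpow_zero, Units.val_one, FunBasic_act_one] at e3
  rw [e3, add_sub_cancel_left] at h1
  have hm := vec_eq_zero_of_norm h1
  rw [e1, hm, deck_zero]

theorem isPlots (hP : IsFr u P) : IsPlots (Plt u P) where
  cover := by
    -- linear isomorphism with `E3 x R`
    have hdim : Module.finrank ℝ E4 = Module.finrank ℝ (E3 × ℝ) := by
      rw [Module.finrank_prod, Module.finrank_self, finrank_euclideanSpace_fin,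
        finrank_euclideanSpace_fin]
    obtain ⟨L⟩ : Nonempty (E4 ≃L[ℝ] E3 × ℝ) := FiniteDimensional.nonempty_continuousLinearEquiv_of_finrank_eq hdim
    have hL : ∀ z, LDH L z := fun z => ld_of_perm (f := L.toEquiv) L.contDiff L.symm.contDiff z
    intro x
    rcases cover (P := P) x with ⟨y, rfl⟩ | ⟨p, hp, rfl⟩
    · -- the map `(y, v) ↦ (|v + 1/2| y, arg)`
      have h1 := TS.OfCoreM_m1_ld y (s := 1 / 2) (t := 0) (by norm_num)
      have hT : IsLocalDiffeomorphAt ((𝓡 2).prod 𝓘(ℝ, ℂ)) ((𝓡 2).prod 𝓘(ℝ, ℂ)) ∞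
          (fun a : S2 × ℂ => (a.1, a.2 + 1 / 2)) (y, 0) := by
        let D : Diffeomorph ((𝓡 2).prod 𝓘(ℝ, ℂ)) ((𝓡 2).prod 𝓘(ℝ, ℂ)) (S2 × ℂ) (S2 × ℂ) ∞ :=
          { toFun := fun a => (a.1, a.2 + 1 / 2)
            invFun := fun a => (a.1, a.2 - 1 / 2)
            left_inv := fun a => by simp
            right_inv := fun a => by simp
            contMDiff_toFun := contMDiff_fst.prodMk (contMDiff_snd.add contMDiff_const)
            contMDiff_invFun := contMDiff_fst.prodMk (contMDiff_snd.sub contMDiff_const) }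
        exact D.isLocalDiffeomorph _
      have e0 : ((y, (0 : ℂ) + 1 / 2) : S2 × ℂ) = (y, ((1 / 2 : ℝ) : ℂ) * TS.ex 0) := by
        have : TS.ex 0 = 1 := by simpa using TS.ex_int 0
        rw [this]
        simp
      rw [← e0] at h1
      have h2 := IsLocalDiffeomorphAt.comp (hf := hT) (hg := h1) ..
      set Φ := (fun a : S2 × ℂ => (‖a.2‖ • (a.1 : E3), TS.OfCoreM_larg 0 a.2)) ∘
        (fun a : S2 × ℂ => (a.1, a.2 + 1 / 2)) with hΦ
      have h3 := h2.localInverse_isLocalDiffeomorphAt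
      have h4 : h2.localInverse (Φ (y, 0)) = (y, 0) :=
        h2.localInverse_left_inv h2.localInverse_mem_target
      have h5 : LDJ (h2.localInverse ∘ L) (L.symm (Φ (y, 0))) := by
        refine IsLocalDiffeomorphAt.comp (hf := hL _) (hg := ?_) ..
        rw [L.apply_symm_apply]
        exact h3
      have h6 : (h2.localInverse ∘ L) (L.symm (Φ (y, 0))) = (y, 0) := by
        rw [Function.comp_apply, L.apply_symm_apply, h4]
      refine ⟨fun w => jx u P ((h2.localInverse ∘ L) w), L.symm (Φ (y, 0)),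
        Or.inr ⟨_, h5, ?_, Filter.EventuallyEq.rfl⟩, ?_⟩
      · rw [h6]; simp
      · show jx u P ((h2.localInverse ∘ L) (L.symm (Φ (y, 0)))) = _
        rw [h6]
    · refine ⟨fun w => Hx u (L w), L.symm p, Or.inl ⟨L, hL _, ?_, Filter.EventuallyEq.rfl⟩, ?_⟩
      · rw [L.apply_symm_apply]; exact hp
      · show Hx u (L (L.symm p)) = _
        rw [L.apply_symm_apply]
  key := fun hf hf' e => key hP hf hf' e
  inj := by
    rintro f z (⟨g, hg, ho, hf⟩ | ⟨g, hg, ho, hf⟩)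
    · obtain ⟨S, hS, hi⟩ := inj_H (u := u) (p := g z)
      obtain ⟨U, hU, hgi⟩ := ld_injOn hg
      have hc := ld_continuousAt hg
      refine ⟨_, inter_mem (inter_mem hU hf) (inter_mem (hc hS) (off_eventually hc ho)), ?_⟩
      rintro a ⟨⟨ha1, ha2⟩, ha3, ha4⟩ b ⟨⟨hb1, hb2⟩, hb3, hb4⟩ e
      have ha2' : f a = Hx u (g a) := ha2
      have hb2' : f b = Hx u (g b) := hb2
      rw [ha2', hb2'] at e
      exact hgi ha1 hb1 (hi ⟨ha3, ha4⟩ ⟨hb3, hb4⟩ e)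
    · obtain ⟨U, hU, hgi⟩ := ld_injOn hg
      have hc := ld_continuousAt hg
      refine ⟨_, inter_mem (inter_mem hU hf) (small_eventually hc ho), ?_⟩
      rintro a ⟨⟨ha1, ha2⟩, ha3⟩ b ⟨⟨hb1, hb2⟩, hb3⟩ e
      have ha2' : f a = jx u P (g a) := ha2
      have hb2' : f b = jx u P (g b) := hb2
      rw [ha2', hb2'] at e
      exact hgi ha1 hb1 (jx_inj hP ha3 hb3 e)
  op := by
    rintro f z (⟨g, hg, ho, hf⟩ | ⟨g, hg, ho, hf⟩)
    · filter_upwards [ld_eventually hg, off_eventually (ld_continuousAt hg) ho,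
        hf.eventually_nhds] with w h1 h2 h3
      exact Or.inl ⟨g, h1, h2, h3⟩
    · filter_upwards [ld_eventually hg, small_eventually (ld_continuousAt hg) ho,
        hf.eventually_nhds] with w h1 h2 h3
      exact Or.inr ⟨g, h1, h2, h3⟩

/-- separation -/
theorem sep_HH {f f' : E4 → CX u} {z z' : E4} (hf : PH u f z) (hf' : PH u f' z')
    (e : f z ≠ f' z') : ∀ᶠ r in 𝓝 z ×ˢ 𝓝 z', f r.1 ≠ f' r.2 := by
  obtain ⟨g, hg, ho, hfg⟩ := hf
  obtain ⟨g', hg', ho', hfg'⟩ := hf'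
  rw [hfg.self_of_nhds, hfg'.self_of_nhds, ne_eq, Hx_eq_iff ho ho'] at e
  have h1 := deck_sep e
  have h2 : Tendsto (fun r : E4 × E4 => (g r.1, g' r.2)) (𝓝 z ×ˢ 𝓝 z') (𝓝 (g z, g' z')) := by
    rw [nhds_prod_eq]
    exact Filter.Tendsto.prodMap (show Tendsto g (𝓝 z) (𝓝 (g z)) from ld_continuousAt hg)
      (show Tendsto g' (𝓝 z') (𝓝 (g' z')) from ld_continuousAt hg')
  have h3 := (hfg.and (off_eventually (ld_continuousAt hg) ho)).prod_mk
    (hfg'.and (off_eventually (ld_continuousAt hg') ho'))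
  filter_upwards [h2.eventually h1, h3] with r h4 h5
  rw [h5.1.1, h5.2.1, ne_eq, Hx_eq_iff h5.1.2 h5.2.2]
  exact h4

theorem sep_JJ (hP : IsFr u P) {f f' : E4 → CX u} {z z' : E4} (hf : PJ u P f z)
    (hf' : PJ u P f' z') (e : f z ≠ f' z') : ∀ᶠ r in 𝓝 z ×ˢ 𝓝 z', f r.1 ≠ f' r.2 := by
  obtain ⟨g, hg, ho, hfg⟩ := hf
  obtain ⟨g', hg', ho', hfg'⟩ := hf'
  have e1 : g z ≠ g' z' := by
    intro h
    apply e
    rw [hfg.self_of_nhds, hfg'.self_of_nhds]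
    show jx u P (g z) = jx u P (g' z')
    rw [h]
  have h1 : ∀ᶠ r in 𝓝 (g z) ×ˢ 𝓝 (g' z'), r.1 ≠ r.2 := by
    rw [← nhds_prod_eq]
    exact (isOpen_ne_fun continuous_fst continuous_snd).mem_nhds e1
  have h2 : Tendsto (fun r : E4 × E4 => (g r.1, g' r.2)) (𝓝 z ×ˢ 𝓝 z') (𝓝 (g z) ×ˢ 𝓝 (g' z')) :=
    Filter.Tendsto.prodMap (show Tendsto g (𝓝 z) (𝓝 (g z)) from ld_continuousAt hg)
      (show Tendsto g' (𝓝 z') (𝓝 (g' z')) from ld_continuousAt hg')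
  have h3 := (hfg.and (small_eventually (ld_continuousAt hg) ho)).prod_mk
    (hfg'.and (small_eventually (ld_continuousAt hg') ho'))
  filter_upwards [h2.eventually h1, h3] with r h4 h5
  rw [h5.1.1, h5.2.1]
  exact fun h => h4 (jx_inj hP h5.1.2 h5.2.2 h)

theorem sep_HJ (hP : IsFr u P) {f f' : E4 → CX u} {z z' : E4} (hf : PH u f z)
    (hf' : PJ u P f' z') (e : f z ≠ f' z') : ∀ᶠ r in 𝓝 z ×ˢ 𝓝 z', f r.1 ≠ f' r.2 := by
  obtain ⟨g', hg', ho', hfg'⟩ := hf'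
  by_cases h0 : (g' z').2 = 0
  · obtain ⟨g, hg, ho, hfg⟩ := hf
    -- the function `x - P t (|v| y)`
    have hc : Continuous fun r : (E3 × ℝ) × (S2 × ℂ) =>
        r.1.1 - P r.1.2 (‖r.2.2‖ • (r.2.1 : E3)) := by
      have h1 : Continuous fun r : (E3 × ℝ) × (S2 × ℂ) => (r.1.2, ‖r.2.2‖ • (r.2.1 : E3)) := by
        fun_prop
      exact (continuous_fst.comp continuous_fst).sub (hP.smooth.continuous.comp h1)
    have h1 : ∀ᶠ r in 𝓝 (g z) ×ˢ 𝓝 (g' z'), ¬ IsLat (r.1.1 - P r.1.2 (‖r.2.2‖ • (r.2.1 : E3))) := by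
      rw [← nhds_prod_eq]
      refine hc.continuousAt.eventually (isClosed_isLat.isOpen_compl.mem_nhds ?_)
      show ¬ IsLat ((g z).1 - P (g z).2 (‖(g' z').2‖ • ((g' z').1 : E3)))
      rw [h0, norm_zero, zero_smul, map_zero, sub_zero]
      exact ho
    have h2 : Tendsto (fun r : E4 × E4 => (g r.1, g' r.2)) (𝓝 z ×ˢ 𝓝 z')
        (𝓝 (g z) ×ˢ 𝓝 (g' z')) := Filter.Tendsto.prodMap (show Tendsto g (𝓝 z) (𝓝 (g z)) from ld_continuousAt hg)
      (show Tendsto g' (𝓝 z') (𝓝 (g' z')) from ld_continuousAt hg')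
    have h3 := (hfg.and (off_eventually (ld_continuousAt hg) ho)).prod_mk
      (hfg'.and (small_eventually (ld_continuousAt hg') ho'))
    filter_upwards [h2.eventually h1, h3] with r h4 h5
    rw [h5.1.1, h5.2.1]
    intro h6
    by_cases hv : (g' r.2).2 = 0
    · rw [show g' r.2 = ((g' r.2).1, (g' r.2).2) from rfl, hv, jx_zero] at h6
      exact Hx_ne_inr h5.1.2 _ h6
    · rw [jx_of_ne hv] at h6
      obtain ⟨n, m, e1⟩ := (Hx_eq_iff (off_tube hP hv h5.2.2) h5.1.2).1 h6.symm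
      apply h4
      have e2 : (g r.1).2 = ar (g' r.2).2 - n := congrArg Prod.snd e1
      have e3 : (g r.1).1 = act _ (P (ar (g' r.2).2) (‖(g' r.2).2‖ • ((g' r.2).1 : E3))) + vec m :=
        congrArg Prod.fst e1
      rw [hP.shift, ← e2] at e3
      refine ⟨m, ?_⟩
      show (g r.1).1 - P (g r.1).2 (‖(g' r.2).2‖ • ((g' r.2).1 : E3)) = vec m
      rw [sub_eq_iff_eq_add, add_comm]
      exact e3
  · exact sep_HH hf (PJ_PH hP hg' ho' h0 hfg') e

theorem sep (hP : IsFr u P) {f : E4 → CX u} {z : E4} {f' : E4 → CX u} {z' : E4}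
    (hf : Plt u P f z) (hf' : Plt u P f' z') (e : f z ≠ f' z') :
    ∃ N ∈ 𝓝 z, ∃ N' ∈ 𝓝 z', ∀ a ∈ N, ∀ b ∈ N', f a ≠ f' b := by
  have h1 : ∀ᶠ r in 𝓝 z ×ˢ 𝓝 z', f r.1 ≠ f' r.2 := by
    rcases hf with hf | hf
    · rcases hf' with hf' | hf'
      · exact sep_HH hf hf' e
      · exact sep_HJ hP hf hf' e
    · rcases hf' with hf' | hf'
      · have h2 := sep_HJ hP hf' hf e.symm
        have h3 : Tendsto (Prod.swap : E4 × E4 → E4 × E4) (𝓝 z ×ˢ 𝓝 z') (𝓝 z' ×ˢ 𝓝 z) := by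
          exact (Filter.prod_comm (f := 𝓝 z') (g := 𝓝 z)).ge
        filter_upwards [h3.eventually h2] with r h4
        exact h4.symm
      · exact sep_JJ hP hf hf' e
  rw [Filter.eventually_iff, Filter.mem_prod_iff] at h1
  obtain ⟨N, hN, N', hN', hs⟩ := h1
  exact ⟨N, hN, N', hN', fun a ha b hb => hs (Set.mk_mem_prod ha hb)⟩

end Pool.Agent.CSE
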