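import Pool.Agent.CSE.Exist

/-!
# CSE/Uniq: the surgered manifold is determined by the matrix and the framing

`exists_diffeo`: every carrier of Cappell-Shaneson data with the framing `P` is diffeomorphic to the model `CX u`
(of `CSE/Exist`); in particular it is Hausdorff.
-/

open scoped Manifold ContDiff Topology
open Set Filter

namespace Pool.Agent.CSE

open Pool.Agent.CSG

theorem off_act_zpow (u : M3ˣ) (n : ℤ) {x : E3} (hx : ¬ IsLat x) :
    ¬ IsLat (act ((u ^ n : M3ˣ) : M3) x) := by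
  have h := (isLat_deck u n 0 (x, 0)).not.2 hx
  have e : (deck u n 0 (x, 0)).1 = act ((u ^ n : M3ˣ) : M3) x := by
    show act _ x + vec 0 = _
    rw [vec_zero, add_zero]
  rwa [e] at h

section
variable {u : M3ˣ} {X : Type*} [TopologicalSpace X] [ChartedSpace E4 X] (D : CSData (u : M3) X)
include D

theorem H_zpow (n : ℤ) {x : E3} (hx : ¬ IsLat x) (t : ℝ) :
    D.H (act ((u ^ n : M3ˣ) : M3) x, t - n) = D.H (x, t) := by
  induction n using Int.induction_on with
  | zero => rw [zpow_zero, Units.val_one, FunBasic_act_one, Int.cast_zero, sub_zero]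
  | succ n ih =>
    rw [add_comm, zpow_add, zpow_one, Units.val_mul, act_mul,
      D.H_mon _ _ (off_act_zpow u n hx), ← ih]
    congr 2
    push_cast
    ring
  | pred n ih =>
    rw [← ih]
    have h1 := D.H_mon (act ((u ^ (-(n : ℤ) - 1) : M3ˣ) : M3) x) (t - ((-(n : ℤ) : ℤ) : ℝ))
      (off_act_zpow u _ hx)
    rw [← act_mul, ← Units.val_mul] at h1
    have h2 : u * u ^ (-(n : ℤ) - 1) = u ^ (-(n : ℤ)) := by
      rw [← zpow_one_add]
      congr 1
      ring
    rw [h2] at h1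
    rw [h1]
    congr 2
    push_cast
    ring

theorem H_deck {p : E3 × ℝ} (hp : ¬ IsLat p.1) (n : ℤ) (m : Fin 3 → ℤ) :
    D.H (deck u n m p) = D.H p := by
  show D.H (act ((u ^ n : M3ˣ) : M3) p.1 + vec m, p.2 - n) = D.H p
  rw [D.H_per _ _ _ (off_act_zpow u n hp)]
  exact H_zpow D n hp p.2

theorem H_eq {p q : E3 × ℝ} (hp : ¬ IsLat p.1) (hq : ¬ IsLat q.1) (h : D.H p = D.H q) :
    ∃ n m, q = deck u n m p := by
  have hp' := (isLat_deck u ⌊p.2⌋ 0 p).not.2 hp
  have hq' := (isLat_deck u ⌊q.2⌋ 0 q).not.2 hq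
  rw [← H_deck D hp ⌊p.2⌋ 0, ← H_deck D hq ⌊q.2⌋ 0] at h
  obtain ⟨h1, m, h2⟩ := D.H_inj (deck u ⌊p.2⌋ 0 p).1 (deck u ⌊q.2⌋ 0 q).1 (deck u ⌊p.2⌋ 0 p).2
    (deck u ⌊q.2⌋ 0 q).2 hp' hq' (Int.fract_nonneg _) (Int.fract_lt_one _) (Int.fract_nonneg _)
    (Int.fract_lt_one _) h
  have h3 : deck u ⌊q.2⌋ 0 q = deck u 0 m (deck u ⌊p.2⌋ 0 p) := by
    ext1
    · show (deck u ⌊q.2⌋ 0 q).1 = act ((u ^ (0 : ℤ) : M3ˣ) : M3) (deck u ⌊p.2⌋ 0 p).1 + vec m
      rw [zpow_zero, Units.val_one, FunBasic_act_one]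
      exact h2
    · show (deck u ⌊q.2⌋ 0 q).2 = (deck u ⌊p.2⌋ 0 p).2 - ((0 : ℤ) : ℝ)
      rw [Int.cast_zero, sub_zero]
      exact h1.symm
  obtain ⟨m', hm'⟩ := exists_deck_inv u ⌊q.2⌋ 0
  have h4 := hm' q
  rw [h3, deck_deck, deck_deck] at h4
  exact ⟨_, _, h4.symm⟩

/-- the framing of a carrier embeds the ball of radius `1`, i.e. avoids the lattice up to radius `2` -/
theorem isFr : IsFr u D.P where
  smooth := D.P_smooth
  mon := D.P_mon
  avoid := by
    intro t z hz hz2 hl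
    obtain ⟨m, hm⟩ := hl
    have hn : 0 < ‖z‖ := norm_pos_iff.2 hz
    have hy : ‖(‖z‖⁻¹ : ℝ) • z‖ = 1 := by
      rw [norm_smul, norm_inv, norm_norm, inv_mul_cancel₀ hn.ne']
    let y : S2 := ⟨(‖z‖⁻¹ : ℝ) • z, by simpa using hy⟩
    have e1 : (‖z‖ / 2) • (y : E3) = (1 / 2 : ℝ) • z := by
      show (‖z‖ / 2) • ((‖z‖⁻¹ : ℝ) • z) = _
      rw [smul_smul]
      congr 1
      field_simp
    have e2 : (‖z‖ / 2) • ((-y : S2) : E3) = -((1 / 2 : ℝ) • z) := by
      rw [← e1]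
      show (‖z‖ / 2) • (-(y : E3)) = _
      rw [smul_neg]
    have g1 := D.glue t (‖z‖ / 2) y (by positivity) (by linarith)
    have g2 := D.glue t (‖z‖ / 2) (-y) (by positivity) (by linarith)
    have ho : ¬ IsLat (D.P t (-((1 / 2 : ℝ) • z))) := by
      refine D.P_avoid t _ ?_ ?_
      · rw [neg_ne_zero]
        exact smul_ne_zero (by norm_num) hz
      · rw [norm_neg, norm_smul, Real.norm_of_nonneg (by norm_num)]
        linarith
    have g3 : D.H (D.P t ((‖z‖ / 2) • (y : E3)), t) = D.H (D.P t ((‖z‖ / 2) • ((-y : S2) : E3)), t) := by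
      rw [e1, e2]
      have e3 : D.P t ((1 / 2 : ℝ) • z) = D.P t (-((1 / 2 : ℝ) • z)) + vec m := by
        rw [← hm, ← map_add]
        congr 1
        rw [eq_neg_add_iff_add_eq, ← add_smul]
        norm_num
      rw [e3]
      exact D.H_per _ _ _ ho
    rw [← g1, ← g2] at g3
    have hnorm : ‖((‖z‖ / 2 : ℝ) : ℂ) * Complex.exp (2 * Real.pi * t * Complex.I)‖ < 1 := by
      rw [ex_eq, norm_mul, TS.ex_norm, mul_one, Complex.norm_real, Real.norm_of_nonneg (by positivity)]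
      linarith
    have g4 := (D.j_inj _ _ _ _ hnorm hnorm g3).1
    have g5 : (y : E3) = -(y : E3) := congrArg Subtype.val g4
    have g6 : (y : E3) = 0 := by
      have h2 : (2 : ℝ) • (y : E3) = 0 := by
        rw [two_smul]
        nth_rewrite 1 [g5]
        exact neg_add_cancel _
      exact (smul_eq_zero.1 h2).resolve_left two_ne_zero
    have g7 : ‖(y : E3)‖ = 1 := norm_eq_of_mem_sphere y
    rw [g6, norm_zero] at g7
    exact zero_ne_one g7

/-- the map from the model -/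
noncomputable def toX : CX u → X :=
  Sum.elim (Quotient.lift (fun p : Off => D.H p.1) (by
    rintro p q ⟨n, m, h⟩
    show D.H p.1 = D.H q.1
    rw [h, H_deck D p.2])) fun y => D.j (y, 0)

theorem toX_H {p : E3 × ℝ} (hp : ¬ IsLat p.1) : toX D (Hx u p) = D.H p := by
  have h : Hx u p = Sum.inl (Quotient.mk (Rel u) ⟨p, hp⟩) := dif_pos hp
  rw [h]
  rfl

theorem toX_zero (y : S2) : toX D (Sum.inr y) = D.j (y, 0) := rfl

theorem toX_j {a : S2 × ℂ} (ha : ‖a.2‖ < 1) : toX D (jx u D.P a) = D.j a := by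
  by_cases h : a.2 = 0
  · obtain ⟨y, v⟩ := a
    have hv : v = 0 := h
    subst hv
    rw [jx_zero, toX_zero]
  · rw [jx_of_ne h, toX_H D (off_tube (isFr D) h ha)]
    have h1 := D.glue (ar a.2) ‖a.2‖ a.1 (norm_pos_iff.2 h) ha
    rw [← h1, ex_eq, ← eq_polar]

theorem toX_injective : Function.Injective (toX D) := by
  intro x x' h
  rcases cover (P := D.P) x with ⟨y, rfl⟩ | ⟨p, hp, rfl⟩ <;>
    rcases cover (P := D.P) x' with ⟨y', rfl⟩ | ⟨p', hp', rfl⟩
  · rw [toX_j D (by simp), toX_j D (by simp)] at h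
    rw [(D.j_inj y y' 0 0 (by simp) (by simp) h).1]
  · rw [toX_j D (by simp), toX_H D hp'] at h
    exact absurd h (D.disj y p'.1 p'.2 hp')
  · rw [toX_j D (by simp), toX_H D hp] at h
    exact absurd h.symm (D.disj y' p.1 p.2 hp)
  · rw [toX_H D hp, toX_H D hp'] at h
    exact (Hx_eq_iff hp hp').2 (H_eq D hp hp' h)

theorem toX_surjective : Function.Surjective (toX D) := by
  intro p
  rcases D.cover p with ⟨y, rfl⟩ | ⟨x, t, hx, rfl⟩
  · exact ⟨Sum.inr y, rfl⟩
  · exact ⟨Hx u (x, t), toX_H D (p := (x, t)) hx⟩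

theorem exists_diffeo : letI := (isPlots (isFr D)).top; letI := (isPlots (isFr D)).chs
    Nonempty (CX u ≃ₘ^∞⟮𝓡 4, 𝓡 4⟯ X) := by
  let _ := (isPlots (isFr D)).top; let _ := (isPlots (isFr D)).chs
  have hld : IsLocalDiffeomorph (𝓡 4) (𝓡 4) ∞ (toX D) := by
    intro x
    rcases cover (P := D.P) x with ⟨y, rfl⟩ | ⟨⟨a, t⟩, hp, rfl⟩
    · refine ld_of_comp_left (f := jx u D.P) (x := (y, (0 : ℂ))) ?_ (jx_ld (isFr D) y (by simp))
      refine ld_congr (D.j_loc y 0 (by simp)) ?_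
      have : IsOpen {a : S2 × ℂ | ‖a.2‖ < 1} := isOpen_lt (by fun_prop) continuous_const
      filter_upwards [this.mem_nhds (show ‖((y, (0 : ℂ)) : S2 × ℂ).2‖ < 1 by simp)] with b hb
      exact toX_j D hb
    · refine ld_of_comp_left (f := Hx u) (x := (a, t)) ?_ (Hx_ld (isFr D) t hp)
      refine ld_congr (D.H_loc a t hp) ?_
      filter_upwards [isOpen_off.mem_nhds hp] with b hb
      exact toX_H D hb
  exact ⟨hld.diffeomorphOfBijective ⟨toX_injective D, toX_surjective D⟩⟩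

omit [TopologicalSpace X] [ChartedSpace E4 X] D in
theorem exists_diffeo' {P : ℝ → E3 ≃L[ℝ] E3} (hP : IsFr u P) {X : Type*} [TopologicalSpace X]
    [ChartedSpace E4 X] (D : CSData (u : M3) X) (h : D.P = P) :
    letI := (isPlots hP).top; letI := (isPlots hP).chs
    Nonempty (CX u ≃ₘ^∞⟮𝓡 4, 𝓡 4⟯ X) := by
  subst h
  exact exists_diffeo D

/-- a carrier is Hausdorff -/
theorem t2Space : T2Space X := by
  let _ := (isPlots (isFr D)).top; let _ := (isPlots (isFr D)).chs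
  have := t2 (isFr D)
  obtain ⟨φ⟩ := exists_diffeo D
  exact φ.toHomeomorph.t2Space

end

/-- **Two carriers with the same framing are diffeomorphic.** -/
theorem unique {A : M3} (hA : IsUnit A) {X : Type*} [TopologicalSpace X] [ChartedSpace E4 X]
    {Y : Type*} [TopologicalSpace Y] [ChartedSpace E4 Y] (D : CSData A X) (D' : CSData A Y)
    (h : D.P = D'.P) : Nonempty (X ≃ₘ^∞⟮𝓡 4, 𝓡 4⟯ Y) := by
  obtain ⟨u, rfl⟩ := hA
  let _ := (isPlots (isFr D)).top; let _ := (isPlots (isFr D)).chs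
  obtain ⟨φ⟩ := exists_diffeo' (isFr D) D rfl
  obtain ⟨φ'⟩ := exists_diffeo' (isFr D) D' h.symm
  exact ⟨φ.symm.trans φ'⟩

end Pool.Agent.CSE
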