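import Pool.Agent.CSF.Stmt
import Pool.Agent.CSE.Frame
import Pool.Agent.CSE.Uniq

/-!
# CSE/Stmt: the Cappell-Shaneson construction, statement

`T^3 = R^3 / Z^3`; a point of `R^3` is `x`, a point of the lattice is `vec m`.  The definitions `Fr`, `ap`,
`SmoothFam`, `IsTorus`, `IsTube`, `ray`, `Glued`, `Covers`, `Sph4`, `IsStdSphere` are in `CSF/Stmt.lean`.
-/

open scoped Manifold ContDiff

namespace Pool.Agent.CSE
open Pool.Agent.CSG Pool.Agent.CSF

/-- Integral matrices with `det A = 1` and `det (A - 1) = ± 1` (Cappell-Shaneson matrices). -/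
def CSMatrix (A : Matrix (Fin 3) (Fin 3) ℤ) : Prop :=
  A.det = 1 ∧ ((A - 1).det = 1 ∨ (A - 1).det = -1)

/-- A framing of the normal space of the circle through the fixed point `0` in the mapping torus of
`A`: `P t`, a linear isomorphism depending smoothly on `t`, with `A P (t + 1) = P t`, which embeds the
open unit ball in `T^3`. -/
structure Framing (A : Matrix (Fin 3) (Fin 3) ℤ) (P : ℝ → Fr) : Prop where
  smooth : SmoothFam P
  mon : ∀ t z, act A (ap (P (t + 1)) z) = ap (P t) z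
  emb : ∀ t z z', ‖z‖ < 1 → ‖z'‖ < 1 → IsLat (ap (P t) z - ap (P t) z') → z = z'

/-- `X` is the result of surgery on the mapping torus of the diffeomorphism `A` of `T^3` along the
circle through the fixed point `0`, with the framing `P`. -/
def Surgered (A : Matrix (Fin 3) (Fin 3) ℤ) (P : ℝ → Fr) (X : Type*) [TopologicalSpace X]
    [ChartedSpace E4 X] : Prop :=
  Framing A P ∧ ∃ (H : E3 × ℝ → X) (j : S2 × ℂ → X),
    IsTorus A H ∧ IsTube j ∧ Glued H j P ∧ Covers H j

theorem Framing.avoid2 {A : Matrix (Fin 3) (Fin 3) ℤ} {P : ℝ → Fr} (h : Framing A P) (t : ℝ) (z : E3)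
    (hz : z ≠ 0) (hz2 : ‖z‖ < 2) : ¬ IsLat (P t z) := by
  intro hl
  apply hz
  have e : (1 / 2 : ℝ) • z = -((1 / 2 : ℝ) • z) := by
    refine h.emb t _ _ ?_ ?_ ?_
    · rw [norm_smul, Real.norm_of_nonneg (by norm_num)]; linarith
    · rw [norm_neg, norm_smul, Real.norm_of_nonneg (by norm_num)]; linarith
    · show IsLat (P t _ - P t _)
      rw [← map_sub, sub_neg_eq_add, ← add_smul]
      norm_num
      exact hl
  have e2 : z = (1 / 2 : ℝ) • z + (1 / 2 : ℝ) • z := by rw [← add_smul]; norm_num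
  rw [e2]
  nth_rewrite 1 [e]
  exact neg_add_cancel _

theorem framing_of {A : Matrix (Fin 3) (Fin 3) ℤ} {P : ℝ → Fr}
    (h1 : ContDiff ℝ ∞ fun q : ℝ × E3 => P q.1 q.2) (h2 : ∀ t z, act A (P (t + 1) z) = P t z)
    (h3 : ∀ t z, z ≠ 0 → ‖z‖ < 2 → ¬ IsLat (P t z)) : Framing A P where
  smooth := h1
  mon := h2
  emb := fun t z z' hz hz' hl => by
    by_contra hne
    refine h3 t (z - z') (sub_ne_zero.2 hne) ?_ ?_
    · exact (norm_sub_le _ _).trans_lt (by linarith)
    · rw [map_sub]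
      exact hl

variable {A : Matrix (Fin 3) (Fin 3) ℤ} {P : ℝ → Fr}
  {X : Type*} [TopologicalSpace X] [ChartedSpace E4 X]

theorem Surgered.csData (h : Surgered A P X) : ∃ D : CSData A X, D.P = P := by
  obtain ⟨hP, H, j, hH, hj, hg, hc⟩ := h
  exact ⟨{
    H := H
    j := j
    P := P
    P_smooth := hP.smooth
    P_mon := hP.mon
    P_avoid := fun t z hz hz1 => hP.avoid2 t z hz (hz1.trans (by norm_num))
    H_loc := hH.loc
    H_per := hH.per
    H_mon := hH.mon
    H_inj := hH.inj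
    j_loc := hj.loc
    j_inj := hj.inj
    glue := hg
    disj := hc.disj
    cover := hc.cover }, rfl⟩

theorem surgered_of (hP : Framing A P) (D : CSData A X) (h : D.P = P) : Surgered A P X := by
  subst h
  exact ⟨hP, D.H, D.j, ⟨D.H_loc, D.H_per, D.H_mon, D.H_inj⟩, ⟨D.j_loc, D.j_inj⟩, D.glue,
    ⟨D.disj, D.cover⟩⟩

theorem exists_framing' (hA : CSMatrix A) : ∃ P, Framing A P := by
  obtain ⟨P, h1, h2, h3⟩ := exists_framing hA.1
  exact ⟨P, framing_of h1 h2 h3⟩

theorem exists_surgered (hA : CSMatrix A) (hP : Framing A P) :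
    ∃ (X : Type) (_ : TopologicalSpace X) (_ : ChartedSpace E4 X),
      T2Space X ∧ IsManifold (𝓡 4) ∞ X ∧ Surgered A P X := by
  obtain ⟨X, tX, cX, h1, h2, D, hD⟩ := exists_csData
    ((Matrix.isUnit_iff_isUnit_det A).2 (by rw [hA.1]; exact isUnit_one)) hP.smooth hP.mon hP.avoid2
  exact ⟨X, tX, cX, h1, h2, surgered_of hP D hD⟩

theorem Surgered.map {Y : Type*} [TopologicalSpace Y] [ChartedSpace E4 Y] (h : Surgered A P X)
    (φ : X ≃ₘ^∞⟮𝓡 4, 𝓡 4⟯ Y) : Surgered A P Y := by
  obtain ⟨D, hD⟩ := h.csData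
  exact surgered_of h.1 (mapData D φ) hD

theorem Surgered.t2 (hA : CSMatrix A) (h : Surgered A P X) : T2Space X := by
  obtain ⟨D, -⟩ := h.csData
  obtain ⟨u, rfl⟩ := (Matrix.isUnit_iff_isUnit_det A).2 (by rw [hA.1]; exact isUnit_one)
  exact t2Space D

/-- The Cappell-Shaneson construction with the matrix `A` gives `S^4`: framings exist, `S^4` is the result of the
surgery for every framing, and every result of the surgery is diffeomorphic to `S^4`. -/
def AlwaysS4.{u} (A : Matrix (Fin 3) (Fin 3) ℤ) : Prop :=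
  (∃ P, Framing A P) ∧ (∀ P, Framing A P → Surgered A P Sph4) ∧
    ∀ (P : ℝ → Fr) (X : Type u) [TopologicalSpace X] [ChartedSpace E4 X],
      Surgered A P X → IsStdSphere X

theorem alwaysS4_of.{u} (hA : CSMatrix A)
    (h0 : ∀ (X : Type) [TopologicalSpace X] [ChartedSpace E4 X] [T2Space X],
      CSData A X → IsStdSphere X)
    (h : ∀ (X : Type u) [TopologicalSpace X] [ChartedSpace E4 X] [T2Space X],
      CSData A X → IsStdSphere X) : AlwaysS4.{u} A := by
  refine ⟨exists_framing' hA, fun P hP => ?_, fun P X _ _ hX => ?_⟩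
  · obtain ⟨X, tX, cX, h1, h2, h3⟩ := exists_surgered hA hP
    obtain ⟨D, -⟩ := h3.csData
    obtain ⟨φ⟩ := h0 X D
    exact h3.map φ
  · obtain ⟨D, -⟩ := hX.csData
    have := hX.t2 hA
    exact h X D

end Pool.Agent.CSE
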